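import Mathlib

/-! Plane cubics through their ten coefficients, and the polar trilinear form. -/

set_option autoImplicit false

namespace Ivrii.NT

/-- Coefficients of a cubic; `cij` belongs to `x ^ i * y ^ j`. -/
@[ext] structure Cub (k : Type*) where
  c30 : k
  c21 : k
  c12 : k
  c03 : k
  c20 : k
  c11 : k
  c02 : k
  c10 : k
  c01 : k
  c00 : k

/-- Vectors of homogeneous coordinates. -/
abbrev V3 (k : Type*) := k × k × k

variable {k : Type*} [Field k]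

namespace Cub

/-- Six times the polar form of the homogenised cubic. -/
def T (c : Cub k) (a b d : V3 k) : k :=
  6 * c.c30 * (a.1 * b.1 * d.1)
  + 2 * c.c21 * (a.1 * b.1 * d.2.1 + a.1 * b.2.1 * d.1 + a.2.1 * b.1 * d.1)
  + 2 * c.c12 * (a.1 * b.2.1 * d.2.1 + a.2.1 * b.1 * d.2.1 + a.2.1 * b.2.1 * d.1)
  + 6 * c.c03 * (a.2.1 * b.2.1 * d.2.1)
  + 2 * c.c20 * (a.1 * b.1 * d.2.2 + a.1 * b.2.2 * d.1 + a.2.2 * b.1 * d.1)
  + c.c11 * (a.1 * b.2.1 * d.2.2 + a.1 * b.2.2 * d.2.1 + a.2.1 * b.1 * d.2.2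
    + a.2.1 * b.2.2 * d.1 + a.2.2 * b.1 * d.2.1 + a.2.2 * b.2.1 * d.1)
  + 2 * c.c02 * (a.2.1 * b.2.1 * d.2.2 + a.2.1 * b.2.2 * d.2.1 + a.2.2 * b.2.1 * d.2.1)
  + 2 * c.c10 * (a.1 * b.2.2 * d.2.2 + a.2.2 * b.1 * d.2.2 + a.2.2 * b.2.2 * d.1)
  + 2 * c.c01 * (a.2.1 * b.2.2 * d.2.2 + a.2.2 * b.2.1 * d.2.2 + a.2.2 * b.2.2 * d.2.1)
  + 6 * c.c00 * (a.2.2 * b.2.2 * d.2.2)

/-- The cubic in the basis `v, p, e`. -/
def pull (c : Cub k) (v p e : V3 k) : Cub k where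
  c30 := c.T v v v / 6
  c21 := c.T v v p / 2
  c12 := c.T v p p / 2
  c03 := c.T p p p / 6
  c20 := c.T v v e / 2
  c11 := c.T v p e
  c02 := c.T p p e / 2
  c10 := c.T v e e / 2
  c01 := c.T p e e / 2
  c00 := c.T e e e / 6

/-- Affine value. -/
def ev (c : Cub k) (x y : k) : k :=
  c.c30 * x ^ 3 + c.c21 * (x ^ 2 * y) + c.c12 * (x * y ^ 2) + c.c03 * y ^ 3 + c.c20 * x ^ 2
  + c.c11 * (x * y) + c.c02 * y ^ 2 + c.c10 * x + c.c01 * y + c.c00

/-- Partial derivative in `x`. -/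
def dx (c : Cub k) (x y : k) : k :=
  3 * c.c30 * x ^ 2 + 2 * c.c21 * (x * y) + c.c12 * y ^ 2 + 2 * c.c20 * x + c.c11 * y + c.c10

/-- Partial derivative in `y`. -/
def dy (c : Cub k) (x y : k) : k :=
  c.c21 * x ^ 2 + 2 * c.c12 * (x * y) + 3 * c.c03 * y ^ 2 + c.c11 * x + 2 * c.c02 * y + c.c01

/-- Cubic coefficient along a line of slope `m`. -/
def a3 (c : Cub k) (m : k) : k := c.c30 + c.c21 * m + c.c12 * m ^ 2 + c.c03 * m ^ 3

/-- Quadratic coefficient along the line of slope `m` through `(x, y)`. -/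
def a2 (c : Cub k) (m x y : k) : k :=
  3 * c.c30 * x + c.c21 * (2 * x * m + y) + c.c12 * (x * m ^ 2 + 2 * y * m) + 3 * c.c03 * (y * m ^ 2)
  + c.c20 + c.c11 * m + c.c02 * m ^ 2

theorem ev_line (c : Cub k) (m x y u : k) : c.ev (x + u) (y + m * u) =
    c.ev x y + (c.dx x y + c.dy x y * m) * u + c.a2 m x y * u ^ 2 + c.a3 m * u ^ 3 := by
  simp only [ev, dx, dy, a2, a3]; ring

/-- Image under a ring map. -/
def map {K : Type*} [Field K] (f : k →+* K) (c : Cub k) : Cub K :=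
  ⟨f c.c30, f c.c21, f c.c12, f c.c03, f c.c20, f c.c11, f c.c02, f c.c10, f c.c01, f c.c00⟩

end Cub

/-- Linear combination of a basis. -/
def lin (v p e a : V3 k) : V3 k :=
  (a.1 * v.1 + a.2.1 * p.1 + a.2.2 * e.1, a.1 * v.2.1 + a.2.1 * p.2.1 + a.2.2 * e.2.1,
    a.1 * v.2.2 + a.2.1 * p.2.2 + a.2.2 * e.2.2)

/-- Determinant. -/
def det3 (a b d : V3 k) : k :=
  a.1 * (b.2.1 * d.2.2 - b.2.2 * d.2.1) - a.2.1 * (b.1 * d.2.2 - b.2.2 * d.1)
  + a.2.2 * (b.1 * d.2.1 - b.2.1 * d.1)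

/-- Two vectors are proportional. -/
def Par (a b : V3 k) : Prop :=
  a.2.1 * b.2.2 = a.2.2 * b.2.1 ∧ a.1 * b.2.2 = a.2.2 * b.1 ∧ a.1 * b.2.1 = a.2.1 * b.1

theorem det3_lin (v p e a b d : V3 k) :
    det3 (lin v p e a) (lin v p e b) (lin v p e d) = det3 v p e * det3 a b d := by
  simp only [det3, lin]; ring

theorem par_iff (a b : V3 k) : Par a b ↔ ∀ d, det3 a b d = 0 := by
  constructor
  · rintro ⟨h1, h2, h3⟩ d
    simp only [det3]
    linear_combination d.1 * h1 - d.2.1 * h2 + d.2.2 * h3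
  · intro h
    have h1 := h (1, 0, 0)
    have h2 := h (0, 1, 0)
    have h3 := h (0, 0, 1)
    simp only [det3] at h1 h2 h3
    exact ⟨by linear_combination h1, by linear_combination -h2, by linear_combination h3⟩

theorem exists_lin {v p e : V3 k} (h : det3 v p e ≠ 0) (x : V3 k) : ∃ a, lin v p e a = x := by
  refine ⟨(det3 x p e / det3 v p e, det3 v x e / det3 v p e, det3 v p x / det3 v p e), ?_⟩
  simp only [lin]
  refine Prod.ext ?_ (Prod.ext ?_ ?_)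
  all_goals
    simp only
    field_simp
    simp only [det3]
    ring

theorem par_of_lin {v p e a b : V3 k} (h : det3 v p e ≠ 0)
    (hp : Par (lin v p e a) (lin v p e b)) : Par a b := by
  rw [par_iff] at hp ⊢
  intro d
  have := hp (lin v p e d)
  rw [det3_lin] at this
  exact (mul_eq_zero.1 this).resolve_left h

theorem exists_det_of_not_par {a b : V3 k} (h : ¬ Par a b) : ∃ d, det3 a b d ≠ 0 := by
  rw [par_iff] at h
  push Not at h
  exact h

variable [CharZero k]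

theorem T_pull (c : Cub k) (v p e a b d : V3 k) :
    (c.pull v p e).T a b d = c.T (lin v p e a) (lin v p e b) (lin v p e d) := by
  simp only [Cub.pull, Cub.T, lin]; ring

theorem pull_pull (c : Cub k) (v p e a b d : V3 k) :
    (c.pull v p e).pull a b d = c.pull (lin v p e a) (lin v p e b) (lin v p e d) := by
  ext <;> simp only [Cub.pull, ← T_pull]

/-- The cubic contains no line. -/
def NoLine (c : Cub k) : Prop :=
  ∀ a b : V3 k, c.T a a a = 0 → c.T a a b = 0 → c.T a b b = 0 → c.T b b b = 0 → Par a b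

theorem NoLine.pull {c : Cub k} (h : NoLine c) {v p e : V3 k} (hd : det3 v p e ≠ 0) :
    NoLine (c.pull v p e) := by
  intro a b h1 h2 h3 h4
  rw [T_pull] at h1 h2 h3 h4
  exact par_of_lin hd (h _ _ h1 h2 h3 h4)

theorem ev_pull (c : Cub k) (a1 a2 b1 b2 o1 o2 x y : k) :
    (c.pull (a1, a2, 0) (b1, b2, 0) (o1, o2, 1)).ev x y =
      c.ev (o1 + a1 * x + b1 * y) (o2 + a2 * x + b2 * y) := by
  simp only [Cub.pull, Cub.T, Cub.ev]; ring

theorem dx_pull (c : Cub k) (a1 a2 b1 b2 o1 o2 x y : k) :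
    (c.pull (a1, a2, 0) (b1, b2, 0) (o1, o2, 1)).dx x y =
      a1 * c.dx (o1 + a1 * x + b1 * y) (o2 + a2 * x + b2 * y)
      + a2 * c.dy (o1 + a1 * x + b1 * y) (o2 + a2 * x + b2 * y) := by
  simp only [Cub.pull, Cub.T, Cub.dx, Cub.dy]; ring

theorem dy_pull (c : Cub k) (a1 a2 b1 b2 o1 o2 x y : k) :
    (c.pull (a1, a2, 0) (b1, b2, 0) (o1, o2, 1)).dy x y =
      b1 * c.dx (o1 + a1 * x + b1 * y) (o2 + a2 * x + b2 * y)
      + b2 * c.dy (o1 + a1 * x + b1 * y) (o2 + a2 * x + b2 * y) := by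
  simp only [Cub.pull, Cub.T, Cub.dx, Cub.dy]; ring

end Ivrii.NT
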