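import Mathlib
import Pool.Agent.P.MP_7a8567_an.NT.Cub

/-! Weierstrass form of a cubic without lines. -/

set_option autoImplicit false

namespace Ivrii.NT

open Polynomial

/-- Norm of a quadratic at the roots of a cubic. -/
def nrm {R : Type*} [CommRing R] (e1 e2 e3 b0 b1 b2 : R) : R :=
  b0 ^ 3 + b0 ^ 2 * b1 * e1 + b0 * b1 ^ 2 * e2 + b1 ^ 3 * e3 + b0 ^ 2 * b2 * (e1 ^ 2 - 2 * e2)
  + b0 * b1 * b2 * (e1 * e2 - 3 * e3) + b1 ^ 2 * b2 * (e1 * e3) + b0 * b2 ^ 2 * (e2 ^ 2 - 2 * e1 * e3)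
  + b1 * b2 ^ 2 * (e2 * e3) + b2 ^ 3 * e3 ^ 2

theorem nrm_prod {R : Type*} [CommRing R] (r1 r2 r3 b0 b1 b2 : R) :
    nrm (r1 + r2 + r3) (r1 * r2 + r1 * r3 + r2 * r3) (r1 * r2 * r3) b0 b1 b2 =
      (b2 * r1 ^ 2 + b1 * r1 + b0) * (b2 * r2 ^ 2 + b1 * r2 + b0) * (b2 * r3 ^ 2 + b1 * r3 + b0) := by
  simp only [nrm]; ring

variable {k : Type*} [Field k]

/-- The norm form of two cubics, the first one monic in the last variable. -/
def nf {R : Type*} [CommRing R] (c h : Cub R) (x y : R) : R :=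
  nrm (-(c.c10 * x + c.c01 * y)) (c.c20 * x ^ 2 + c.c11 * (x * y) + c.c02 * y ^ 2)
    (-(c.c30 * x ^ 3 + c.c21 * (x ^ 2 * y) + c.c12 * (x * y ^ 2) + c.c03 * y ^ 3))
    (h.c30 * x ^ 3 + h.c21 * (x ^ 2 * y) + h.c12 * (x * y ^ 2) + h.c03 * y ^ 3)
    (h.c20 * x ^ 2 + h.c11 * (x * y) + h.c02 * y ^ 2) (h.c10 * x + h.c01 * y)

theorem exists_pow_root [IsAlgClosed k] (a : k) {n : ℕ} (hn : 0 < n) : ∃ r, r ^ n = a :=
  IsAlgClosed.exists_pow_nat_eq a hn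

theorem exists_quad [IsAlgClosed k] (s p : k) : ∃ a b, a + b = s ∧ a * b = p := by
  obtain ⟨v, hv⟩ := IsAlgClosed.exists_root (X ^ 2 - C s * X + C p : k[X])
    (by
      have : (X ^ 2 - C s * X + C p : k[X]).degree = 2 := by compute_degree!
      rw [this]; decide)
  simp only [IsRoot, eval_add, eval_sub, eval_pow, eval_X, eval_mul, eval_C] at hv
  exact ⟨v, s - v, by ring, by linear_combination -hv⟩

theorem exists_cubic [IsAlgClosed k] (e1 e2 e3 : k) : ∃ r1 r2 r3, r1 + r2 + r3 = e1 ∧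
    r1 * r2 + r1 * r3 + r2 * r3 = e2 ∧ r1 * r2 * r3 = e3 := by
  obtain ⟨v, hv⟩ := IsAlgClosed.exists_root (X ^ 3 - C e1 * X ^ 2 + C e2 * X - C e3 : k[X])
    (by
      have : (X ^ 3 - C e1 * X ^ 2 + C e2 * X - C e3 : k[X]).degree = 3 := by compute_degree!
      rw [this]; decide)
  simp only [IsRoot, eval_add, eval_sub, eval_pow, eval_X, eval_mul, eval_C] at hv
  obtain ⟨a, b, h1, h2⟩ := exists_quad (e1 - v) (e2 - v * (e1 - v))
  exact ⟨v, a, b, by linear_combination h1, by linear_combination v * h1 + h2,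
    by linear_combination v * h2 + hv⟩

theorem nf_zero [IsAlgClosed k] (c h : Cub k) : ∃ x y, ¬ (x = 0 ∧ y = 0) ∧ nf c h x y = 0 := by
  by_contra hne
  push Not at hne
  let cc : Cub k[X] := ⟨C c.c30, C c.c21, C c.c12, C c.c03, C c.c20, C c.c11, C c.c02, C c.c10,
    C c.c01, C c.c00⟩
  let hh : Cub k[X] := ⟨C h.c30, C h.c21, C h.c12, C h.c03, C h.c20, C h.c11, C h.c02, C h.c10,
    C h.c01, C h.c00⟩
  have hev : ∀ (P Q : k[X]) t, (nf cc hh P Q).eval t = nf c h (P.eval t) (Q.eval t) := by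
    intro P Q t
    simp [nf, nrm, cc, hh]
  have hom : ∀ l x y : k, nf c h (l * x) (l * y) = l ^ 9 * nf c h x y := by
    intro l x y
    simp only [nf, nrm]; ring
  have h1 : (nf cc hh X 1).degree = 0 := by
    by_contra hd
    obtain ⟨x, hx⟩ := IsAlgClosed.exists_root _ hd
    rw [IsRoot, hev] at hx
    exact hne _ _ (by simp) hx
  obtain ⟨a, ha⟩ : ∃ a, nf cc hh X 1 = C a := ⟨_, eq_C_of_degree_eq_zero h1⟩
  have h2 : nf cc hh 1 X - C a * X ^ 9 = 0 := by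
    apply eq_zero_of_infinite_isRoot
    refine (Set.finite_singleton (0 : k)).infinite_compl.mono fun y hy => ?_
    have hy0 : y ≠ 0 := hy
    have h3 := congrArg (eval y⁻¹) ha
    rw [hev] at h3
    have h4 := hom y y⁻¹ 1
    simp only [eval_X, eval_one, eval_C] at h3
    rw [mul_inv_cancel₀ hy0, mul_one, h3] at h4
    simp only [Set.mem_ofPred_eq, IsRoot, eval_sub, hev, eval_one, eval_X, eval_mul, eval_C,
      eval_pow, h4]
    ring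
  have h5 := congrArg (eval 0) h2
  rw [eval_sub, hev] at h5
  exact hne 1 0 (by simp) (by simpa using h5)

theorem common_zero1 [IsAlgClosed k] (c h : Cub k) (hc : c.c00 ≠ 0) :
    ∃ p : V3 k, p ≠ 0 ∧ c.T p p p = 0 ∧ h.T p p p = 0 := by
  let c' : Cub k := ⟨c.c30 / c.c00, c.c21 / c.c00, c.c12 / c.c00, c.c03 / c.c00, c.c20 / c.c00,
    c.c11 / c.c00, c.c02 / c.c00, c.c10 / c.c00, c.c01 / c.c00, 1⟩
  let h' : Cub k := ⟨h.c30 - h.c00 * c'.c30, h.c21 - h.c00 * c'.c21, h.c12 - h.c00 * c'.c12,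
    h.c03 - h.c00 * c'.c03, h.c20 - h.c00 * c'.c20, h.c11 - h.c00 * c'.c11,
    h.c02 - h.c00 * c'.c02, h.c10 - h.c00 * c'.c10, h.c01 - h.c00 * c'.c01, 0⟩
  obtain ⟨x, y, hxy, h0⟩ := nf_zero c' h'
  unfold nf at h0
  obtain ⟨r1, r2, r3, e1, e2, e3⟩ := exists_cubic (-(c'.c10 * x + c'.c01 * y))
    (c'.c20 * x ^ 2 + c'.c11 * (x * y) + c'.c02 * y ^ 2)
    (-(c'.c30 * x ^ 3 + c'.c21 * (x ^ 2 * y) + c'.c12 * (x * y ^ 2) + c'.c03 * y ^ 3))
  rw [← e1, ← e2, ← e3, nrm_prod] at h0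
  have key : ∀ r, (r - r1) * (r - r2) * (r - r3) = 0 →
      (h'.c10 * x + h'.c01 * y) * r ^ 2 + (h'.c20 * x ^ 2 + h'.c11 * (x * y) + h'.c02 * y ^ 2) * r
      + (h'.c30 * x ^ 3 + h'.c21 * (x ^ 2 * y) + h'.c12 * (x * y ^ 2) + h'.c03 * y ^ 3) = 0 →
      ∃ p : V3 k, p ≠ 0 ∧ c.T p p p = 0 ∧ h.T p p p = 0 := by
    intro r hr hq
    have hc' : c'.T (x, y, r) (x, y, r) (x, y, r) = 0 := by
      have : c'.c00 = 1 := rfl
      simp only [Cub.T, this]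
      linear_combination 6 * hr + 6 * r ^ 2 * e1 - 6 * r * e2 + 6 * e3
    refine ⟨(x, y, r), fun h => hxy ⟨congrArg Prod.fst h, congrArg (fun p => p.2.1) h⟩, ?_, ?_⟩
    · have : c.T (x, y, r) (x, y, r) (x, y, r) = c.c00 * c'.T (x, y, r) (x, y, r) (x, y, r) := by
        simp only [Cub.T, c']; field_simp
      rw [this, hc', mul_zero]
    · have h00 : c'.c00 = 1 := rfl
      simp only [h'] at hq
      simp only [Cub.T, h00] at hc' ⊢
      linear_combination 6 * hq + h.c00 * hc'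
  rcases mul_eq_zero.1 h0 with h0 | h0
  · rcases mul_eq_zero.1 h0 with h0 | h0
    · exact key r1 (by ring) h0
    · exact key r2 (by ring) h0
  · exact key r3 (by ring) h0

theorem common_zero [IsAlgClosed k] (c h : Cub k) :
    ∃ p : V3 k, p ≠ 0 ∧ c.T p p p = 0 ∧ h.T p p p = 0 := by
  by_cases hc : c.c00 = 0
  · by_cases hh : h.c00 = 0
    · exact ⟨(0, 0, 1), by simp, by simp [Cub.T, hc], by simp [Cub.T, hh]⟩
    · obtain ⟨p, h1, h2, h3⟩ := common_zero1 h c hh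
      exact ⟨p, h1, h3, h2⟩
  · exact common_zero1 c h hc

theorem exists_det_cub (a1 b1 c1 a2 b2 c2 a3 b3 c3 : V3 k) : ∃ h : Cub k, ∀ p,
    h.T p p p = 6 * det3 (lin a1 b1 c1 p) (lin a2 b2 c2 p) (lin a3 b3 c3 p) := by
  refine ⟨⟨det3 a1 a2 a3, det3 b1 a2 a3 + det3 a1 b2 a3 + det3 a1 a2 b3,
    det3 a1 b2 b3 + det3 b1 a2 b3 + det3 b1 b2 a3, det3 b1 b2 b3,
    det3 c1 a2 a3 + det3 a1 c2 a3 + det3 a1 a2 c3,
    det3 a1 b2 c3 + det3 a1 c2 b3 + det3 b1 a2 c3 + det3 b1 c2 a3 + det3 c1 a2 b3 + det3 c1 b2 a3,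
    det3 c1 b2 b3 + det3 b1 c2 b3 + det3 b1 b2 c3,
    det3 a1 c2 c3 + det3 c1 a2 c3 + det3 c1 c2 a3,
    det3 b1 c2 c3 + det3 c1 b2 c3 + det3 c1 c2 b3, det3 c1 c2 c3⟩, fun p => ?_⟩
  simp only [Cub.T, det3, lin]
  ring

theorem exists_ker {r1 r2 r3 : V3 k} (h : det3 r1 r2 r3 = 0) : ∃ v : V3 k, v ≠ 0 ∧
    r1.1 * v.1 + r1.2.1 * v.2.1 + r1.2.2 * v.2.2 = 0 ∧
    r2.1 * v.1 + r2.2.1 * v.2.1 + r2.2.2 * v.2.2 = 0 ∧
    r3.1 * v.1 + r3.2.1 * v.2.1 + r3.2.2 * v.2.2 = 0 := by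
  have hd : (!![r1.1, r1.2.1, r1.2.2; r2.1, r2.2.1, r2.2.2; r3.1, r3.2.1, r3.2.2] :
      Matrix (Fin 3) (Fin 3) k).det = 0 := by
    rw [Matrix.det_fin_three]
    simp only [det3] at h
    simp
    linear_combination h
  obtain ⟨v, hv, h0⟩ := Matrix.exists_mulVec_eq_zero_iff.2 hd
  refine ⟨(v 0, v 1, v 2), fun e => hv ?_, ?_, ?_, ?_⟩
  · ext i
    fin_cases i
    · exact congrArg Prod.fst e
    · exact congrArg (fun p => p.2.1) e
    · exact congrArg (fun p => p.2.2) e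
  · simpa [Matrix.mulVec, dotProduct, Fin.sum_univ_three] using congrFun h0 0
  · simpa [Matrix.mulVec, dotProduct, Fin.sum_univ_three] using congrFun h0 1
  · simpa [Matrix.mulVec, dotProduct, Fin.sum_univ_three] using congrFun h0 2

theorem exists_hess [IsAlgClosed k] [CharZero k] (c : Cub k) :
    ∃ p v : V3 k, p ≠ 0 ∧ v ≠ 0 ∧ c.T p p p = 0 ∧ ∀ w, c.T p v w = 0 := by
  obtain ⟨h, hh⟩ := exists_det_cub (6 * c.c30, 2 * c.c21, 2 * c.c20) (2 * c.c21, 2 * c.c12, c.c11)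
    (2 * c.c20, c.c11, 2 * c.c10) (2 * c.c21, 2 * c.c12, c.c11) (2 * c.c12, 6 * c.c03, 2 * c.c02)
    (c.c11, 2 * c.c02, 2 * c.c01) (2 * c.c20, c.c11, 2 * c.c10) (c.c11, 2 * c.c02, 2 * c.c01)
    (2 * c.c10, 2 * c.c01, 6 * c.c00)
  obtain ⟨p, hp, h1, h2⟩ := common_zero c h
  rw [hh] at h2
  obtain ⟨v, hv, e1, e2, e3⟩ := exists_ker ((mul_eq_zero.1 h2).resolve_left (by norm_num))
  refine ⟨p, v, hp, hv, h1, fun w => ?_⟩
  simp only [lin] at e1 e2 e3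
  simp only [Cub.T]
  linear_combination w.1 * e1 + w.2.1 * e2 + w.2.2 * e3

end Ivrii.NT
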