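import Mathlib
import Pool.Agent.P.MP_7a8567_an.NT.Flex

/-! Weierstrass form of a cubic without lines. -/

set_option autoImplicit false

namespace Ivrii.NT

variable {k : Type*} [Field k] [CharZero k]

/-- Shape `c30 X^3 + c02 Y^2 Z + c10 X Z^2 + c00 Z^3`. -/
def WeiS (n : Cub k) : Prop :=
  n.c03 = 0 ∧ n.c12 = 0 ∧ n.c21 = 0 ∧ n.c11 = 0 ∧ n.c01 = 0 ∧ n.c20 = 0 ∧ n.c02 ≠ 0 ∧ n.c30 ≠ 0

def Wei (c : Cub k) : Prop := ∃ v p e, det3 v p e ≠ 0 ∧ WeiS (c.pull v p e)

theorem wei_pull {c : Cub k} {a b d : V3 k} (h : det3 a b d ≠ 0) (hw : Wei (c.pull a b d)) :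
    Wei c := by
  obtain ⟨v, p, e, h1, h2⟩ := hw
  rw [pull_pull] at h2
  exact ⟨_, _, _, by rw [det3_lin]; exact mul_ne_zero h h1, h2⟩

theorem wei_flex0 {c : Cub k} (hl : NoLine c) (h03 : c.c03 = 0) (h12 : c.c12 = 0)
    (h21 : c.c21 = 0) (h02 : c.c02 ≠ 0) : Wei c := by
  have h30 : c.c30 ≠ 0 := by
    intro h
    have := hl (1, 0, 0) (0, 1, 0) (by simp [Cub.T, h]) (by simp [Cub.T, h21])
      (by simp [Cub.T, h12]) (by simp [Cub.T, h03])
    simp [Par] at this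
  obtain ⟨α, hα⟩ : ∃ α, c.c11 + 2 * c.c02 * α = 0 := ⟨-c.c11 / (2 * c.c02), by field_simp; ring⟩
  obtain ⟨γ, hγ⟩ : ∃ γ, 3 * c.c30 * γ + c.c20 + c.c11 * α + c.c02 * α ^ 2 = 0 :=
    ⟨-(c.c20 + c.c11 * α + c.c02 * α ^ 2) / (3 * c.c30), by field_simp; ring⟩
  obtain ⟨β, hβ⟩ : ∃ β, c.c11 * γ + 2 * c.c02 * β + c.c01 = 0 :=
    ⟨-(c.c11 * γ + c.c01) / (2 * c.c02), by field_simp; ring⟩
  refine ⟨(1, α, 0), (0, 1, 0), (γ, β, 1), by simp [det3], ?_⟩
  simp only [WeiS, Cub.pull, Cub.T, h03, h12, h21]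
  refine ⟨by ring, by ring, by ring, by linear_combination hα, by linear_combination hβ,
    by linear_combination hγ, ?_, ?_⟩
  · intro h; exact h02 (by linear_combination h)
  · intro h; exact h30 (by linear_combination h)

theorem wei_flex {c : Cub k} (hl : NoLine c) {p v w : V3 k} (h1 : c.T p p p = 0)
    (h2 : c.T p p v = 0) (h3 : c.T p v v = 0) (hp : ¬ Par v p) (hw : c.T p p w ≠ 0) : Wei c := by
  obtain ⟨e, he⟩ := exists_det_of_not_par hp
  refine wei_pull he (wei_flex0 (hl.pull he) ?_ ?_ ?_ ?_)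
  · simp [Cub.pull, h1]
  · simp only [Cub.pull, Cub.T] at h2 ⊢; linear_combination h2 / 2
  · simp only [Cub.pull, Cub.T] at h3 ⊢; linear_combination h3 / 2
  · obtain ⟨a, rfl⟩ := exists_lin he w
    intro h
    apply hw
    simp only [Cub.pull, Cub.T, lin] at h h1 h2 ⊢
    linear_combination a.1 * h2 + a.2.1 * h1 + 2 * a.2.2 * h

theorem c30_ne {c : Cub k} (hl : NoLine c) (h00 : c.c00 = 0) (h10 : c.c10 = 0)
    (h20 : c.c20 = 0) : c.c30 ≠ 0 := by
  intro h
  have := hl (1, 0, 0) (0, 0, 1) (by simp [Cub.T, h]) (by simp [Cub.T, h20])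
    (by simp [Cub.T, h10]) (by simp [Cub.T, h00])
  simp [Par] at this

theorem wei_cusp0 {c : Cub k} (hl : NoLine c) (h00 : c.c00 = 0) (h10 : c.c10 = 0)
    (h01 : c.c01 = 0) (h20 : c.c20 = 0) (h11 : c.c11 = 0) (h21 : c.c21 = 0) (h02 : c.c02 ≠ 0) :
    Wei c := by
  have h30 := c30_ne hl h00 h10 h20
  obtain ⟨α, hα⟩ : ∃ α, c.c12 + c.c02 * α = 0 := ⟨-c.c12 / c.c02, by field_simp; ring⟩
  obtain ⟨β, hβ⟩ : ∃ β, c.c03 + c.c02 * β = 0 := ⟨-c.c03 / c.c02, by field_simp; ring⟩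
  refine ⟨(1, 0, α), (0, 1, β), (0, 0, 1), by simp [det3], ?_⟩
  simp only [WeiS, Cub.pull, Cub.T, h00, h10, h01, h20, h11, h21]
  refine ⟨by linear_combination hβ, by linear_combination hα, by ring, by ring, by ring,
    by ring, ?_, ?_⟩
  · intro h; exact h02 (by linear_combination h)
  · intro h; exact h30 (by linear_combination h)

theorem wei_cusp {c : Cub k} (hl : NoLine c) (h00 : c.c00 = 0) (h10 : c.c10 = 0)
    (h01 : c.c01 = 0) (h20 : c.c20 = 0) (h11 : c.c11 = 0) (h02 : c.c02 ≠ 0) : Wei c := by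
  have h30 := c30_ne hl h00 h10 h20
  obtain ⟨α, hα⟩ : ∃ α, c.c21 + 3 * c.c30 * α = 0 := ⟨-c.c21 / (3 * c.c30), by field_simp; ring⟩
  have hd : det3 ((1, 0, 0) : V3 k) (α, 1, 0) (0, 0, 1) ≠ 0 := by simp [det3]
  refine wei_pull hd (wei_cusp0 (hl.pull hd) ?_ ?_ ?_ ?_ ?_ ?_ ?_)
  all_goals simp only [Cub.pull, Cub.T, h00, h10, h01, h20, h11]
  · ring
  · ring
  · ring
  · ring
  · ring
  · linear_combination hα
  · intro h; exact h02 (by linear_combination h)

variable [IsAlgClosed k]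

theorem wei_node {c : Cub k} (hl : NoLine c) (h00 : c.c00 = 0) (h10 : c.c10 = 0)
    (h01 : c.c01 = 0) (h20 : c.c20 = 0) (h02 : c.c02 = 0) (h11 : c.c11 ≠ 0) : Wei c := by
  have h30 := c30_ne hl h00 h10 h20
  have h03 : c.c03 ≠ 0 := by
    intro h
    have := hl (0, 1, 0) (0, 0, 1) (by simp [Cub.T, h]) (by simp [Cub.T, h02])
      (by simp [Cub.T, h01]) (by simp [Cub.T, h00])
    simp [Par] at this
  obtain ⟨ρ, hρ⟩ := exists_pow_root (-c.c03 / c.c30) (show 0 < 3 by norm_num)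
  have hρ' : c.c30 * ρ ^ 3 + c.c03 = 0 := by rw [hρ]; field_simp; ring
  have hρ0 : ρ ≠ 0 := by
    rintro rfl
    exact h03 (by linear_combination hρ')
  refine wei_flex hl (p := (c.c11 * ρ, c.c11, -(ρ * c.c21 + c.c12)))
    (v := (c.c11, 0, -c.c21 - 3 * ρ * c.c30)) (w := (0, 0, 1)) ?_ ?_ ?_ ?_ ?_
  · simp only [Cub.T, h00, h10, h01, h20, h02]
    linear_combination 6 * c.c11 ^ 3 * hρ'
  · simp only [Cub.T, h00, h10, h01, h20, h02]
    ring
  · simp only [Cub.T, h00, h10, h01, h20, h02]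
    ring
  · simp [Par, h11]
  · simp only [Cub.T, h00, h10, h01, h20, h02]
    intro h
    exact mul_ne_zero (pow_ne_zero 3 h11) hρ0 (by linear_combination h / 2)

theorem wei_sing1 {c : Cub k} (hl : NoLine c) (h00 : c.c00 = 0) (h10 : c.c10 = 0)
    (h01 : c.c01 = 0) (h20 : c.c20 = 0) : Wei c := by
  by_cases h11 : c.c11 = 0
  · refine wei_cusp hl h00 h10 h01 h20 h11 fun h02 => ?_
    have h30 := c30_ne hl h00 h10 h20
    obtain ⟨r, r2, r3, e1, e2, e3⟩ := exists_cubic (-c.c21 / c.c30) (c.c12 / c.c30) (-c.c03 / c.c30)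
    have hr : c.c30 * r ^ 3 + c.c21 * r ^ 2 + c.c12 * r + c.c03 = 0 := by
      field_simp at e1 e2 e3
      linear_combination r ^ 2 * e1 - r * e2 + e3
    have := hl (r, 1, 0) (0, 0, 1) (by simp only [Cub.T]; linear_combination 6 * hr)
      (by simp [Cub.T, h20, h11, h02]) (by simp [Cub.T, h10, h01]) (by simp [Cub.T, h00])
    simp [Par] at this
  · obtain ⟨α, hα⟩ : ∃ α, c.c02 + c.c11 * α = 0 := ⟨-c.c02 / c.c11, by field_simp; ring⟩
    have hd : det3 ((1, 0, 0) : V3 k) (α, 1, 0) (0, 0, 1) ≠ 0 := by simp [det3]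
    refine wei_pull hd (wei_node (hl.pull hd) ?_ ?_ ?_ ?_ ?_ ?_)
    all_goals simp only [Cub.pull, Cub.T, h00, h10, h01, h20]
    · ring
    · ring
    · ring
    · ring
    · linear_combination hα
    · intro h; exact h11 (by linear_combination h)

theorem wei_sing0 {c : Cub k} (hl : NoLine c) (h00 : c.c00 = 0) (h10 : c.c10 = 0)
    (h01 : c.c01 = 0) : Wei c := by
  by_cases h20 : c.c20 = 0
  · exact wei_sing1 hl h00 h10 h01 h20
  obtain ⟨r, r2, e1, e2⟩ := exists_quad (-c.c11 / c.c20) (c.c02 / c.c20)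
  have hr : c.c20 * r ^ 2 + c.c11 * r + c.c02 = 0 := by
    field_simp at e1 e2
    linear_combination r * e1 - e2
  have hd : det3 ((r, 1, 0) : V3 k) (1, 0, 0) (0, 0, 1) ≠ 0 := by simp [det3]
  refine wei_pull hd (wei_sing1 (hl.pull hd) ?_ ?_ ?_ ?_)
  all_goals simp only [Cub.pull, Cub.T, h00, h10, h01]
  · ring
  · ring
  · ring
  · linear_combination hr

omit [CharZero k] [IsAlgClosed k] in
theorem exists_not_par {p : V3 k} (hp : p ≠ 0) : ∃ a, ¬ Par a p := by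
  by_contra h
  push Not at h
  have h1 := h (1, 0, 0)
  have h2 := h (0, 1, 0)
  simp only [Par] at h1 h2
  apply hp
  refine Prod.ext ?_ (Prod.ext ?_ ?_)
  · simpa using h2.2.2.symm
  · simpa using h1.2.2
  · simpa using h1.2.1

omit [CharZero k] [IsAlgClosed k] in
theorem par_smul {v p : V3 k} (hv : v ≠ 0) (h : Par v p) :
    ∃ l : k, p = (l * v.1, l * v.2.1, l * v.2.2) := by
  obtain ⟨h1, h2, h3⟩ := h
  by_cases a1 : v.1 = 0
  · by_cases a2 : v.2.1 = 0
    · have a3 : v.2.2 ≠ 0 := fun a3 => hv (Prod.ext a1 (Prod.ext a2 a3))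
      refine ⟨p.2.2 / v.2.2, Prod.ext ?_ (Prod.ext ?_ ?_)⟩ <;> simp only <;> field_simp
      · linear_combination -h2
      · linear_combination -h1
    · refine ⟨p.2.1 / v.2.1, Prod.ext ?_ (Prod.ext ?_ ?_)⟩ <;> simp only <;> field_simp
      · linear_combination -h3
      · linear_combination h1
  · refine ⟨p.1 / v.1, Prod.ext ?_ (Prod.ext ?_ ?_)⟩ <;> simp only <;> field_simp
    · linear_combination h3
    · linear_combination h2

theorem wei {c : Cub k} (hl : NoLine c) : Wei c := by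
  obtain ⟨p, v, hp, hv, h1, h2⟩ := exists_hess c
  by_cases hs : ∀ w, c.T p p w = 0
  · obtain ⟨a, ha⟩ := exists_not_par hp
    obtain ⟨b, hb⟩ := exists_det_of_not_par ha
    have hd : det3 b a p ≠ 0 := by
      intro h; apply hb; simp only [det3] at h ⊢; linear_combination h
    refine wei_pull hd (wei_sing0 (hl.pull hd) ?_ ?_ ?_)
    · simp [Cub.pull, h1]
    · have := hs b
      simp only [Cub.pull, Cub.T] at this ⊢; linear_combination this / 2
    · have := hs a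
      simp only [Cub.pull, Cub.T] at this ⊢; linear_combination this / 2
  · push Not at hs
    obtain ⟨w, hw⟩ := hs
    refine wei_flex hl h1 ?_ (h2 v) (fun h => hw ?_) hw
    · have := h2 p
      simp only [Cub.T] at this ⊢; linear_combination this
    · obtain ⟨l, hl'⟩ := par_smul hv h
      have := h2 w
      have e1 : p.1 = l * v.1 := by rw [hl']
      have e2 : p.2.1 = l * v.2.1 := by rw [hl']
      have e3 : p.2.2 = l * v.2.2 := by rw [hl']
      simp only [Cub.T, e1, e2, e3] at this ⊢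
      linear_combination l * this

end Ivrii.NT
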