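import Mathlib
import Pool.Agent.P.MP_7a8567_an.NT.Wei

/-! Normal forms of a real cubic without lines. -/

set_option autoImplicit false

namespace Ivrii.NT

variable {k : Type*} [Field k] [CharZero k]

def NF1 (n : Cub k) : Prop := n.c20 = 0 ∧ n.c10 = 0 ∧ n.c00 = 0 ∧ n.c30 ≠ 0 ∧ n.c01 ≠ 0

def NF3 (n : Cub k) : Prop :=
  n.c20 = 0 ∧ n.c11 = 0 ∧ n.c10 = 0 ∧ n.c01 = 0 ∧ n.c00 = 0 ∧ n.c30 ≠ 0 ∧ n.c02 ≠ 0

def NF4 (n : Cub k) : Prop := n.c30 = 0 ∧ n.c20 = 0 ∧ n.c10 = 0 ∧ n.c00 ≠ 0 ∧ n.c21 ≠ 0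

def Nrm (c : Cub k) : Prop := ∃ o1 o2 : k,
  (∃ s : k, s ≠ 0 ∧ (NF1 (c.pull (s, s⁻¹, 0) (s, -s⁻¹, 0) (o1, o2, 1)) ∨
    NF3 (c.pull (s, s⁻¹, 0) (s, -s⁻¹, 0) (o1, o2, 1)) ∨
    NF4 (c.pull (s, s⁻¹, 0) (s, -s⁻¹, 0) (o1, o2, 1)))) ∨
  NF1 (c.pull (1, 0, 0) (0, 1, 0) (o1, o2, 1)) ∨ NF1 (c.pull (0, 1, 0) (1, 0, 0) (o1, o2, 1))

theorem nf1_of {c : Cub k} (hl : NoLine c) {v p e w : V3 k} (hd : det3 v p e ≠ 0)
    (h1 : c.T e e e = 0) (h2 : c.T e e v = 0) (h3 : c.T e v v = 0) (hw : c.T e e w ≠ 0) :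
    NF1 (c.pull v p e) := by
  have a20 : (c.pull v p e).c20 = 0 := by
    simp only [Cub.pull, Cub.T] at h3 ⊢; linear_combination h3 / 2
  have a10 : (c.pull v p e).c10 = 0 := by
    simp only [Cub.pull, Cub.T] at h2 ⊢; linear_combination h2 / 2
  have a00 : (c.pull v p e).c00 = 0 := by simp [Cub.pull, h1]
  refine ⟨a20, a10, a00, c30_ne (hl.pull hd) a00 a10 a20, fun h => hw ?_⟩
  obtain ⟨a, rfl⟩ := exists_lin hd w
  simp only [Cub.pull, Cub.T, lin] at h h1 h2 ⊢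
  linear_combination a.1 * h2 + a.2.2 * h1 + 2 * a.2.1 * h

theorem nf4_of {c : Cub k} (hl : NoLine c) {v p e w : V3 k} (hd : det3 v p e ≠ 0)
    (h1 : c.T v v v = 0) (h2 : c.T v v e = 0) (h3 : c.T v e e = 0) (hw : c.T v v w ≠ 0) :
    NF4 (c.pull v p e) := by
  refine ⟨by simp [Cub.pull, h1], by simp [Cub.pull, h2], by simp [Cub.pull, h3], fun h => ?_,
    fun h => hw ?_⟩
  · have := (par_iff _ _).1 (hl v e h1 h2 h3 (by simpa [Cub.pull] using h)) p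
    apply hd
    simp only [det3] at this ⊢
    linear_combination -this
  · obtain ⟨a, rfl⟩ := exists_lin hd w
    simp only [Cub.pull, Cub.T, lin] at h h1 h2 ⊢
    linear_combination a.1 * h1 + a.2.2 * h2 + 2 * a.2.1 * h

variable [IsAlgClosed k]

theorem nf3_of {c : Cub k} (hl : NoLine c) {v p e : V3 k} (hd : det3 v p e ≠ 0)
    (h1 : ∀ w, c.T e e w = 0) (h2 : ∀ w, c.T e v w = 0) : NF3 (c.pull v p e) := by
  have a20 : (c.pull v p e).c20 = 0 := by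
    have := h2 v
    simp only [Cub.pull, Cub.T] at this ⊢; linear_combination this / 2
  have a11 : (c.pull v p e).c11 = 0 := by
    have := h2 p
    simp only [Cub.pull, Cub.T] at this ⊢; linear_combination this
  have a10 : (c.pull v p e).c10 = 0 := by
    have := h1 v
    simp only [Cub.pull, Cub.T] at this ⊢; linear_combination this / 2
  have a01 : (c.pull v p e).c01 = 0 := by
    have := h1 p
    simp only [Cub.pull, Cub.T] at this ⊢; linear_combination this / 2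
  have a00 : (c.pull v p e).c00 = 0 := by simp [Cub.pull, h1]
  have h30 := c30_ne (hl.pull hd) a00 a10 a20
  refine ⟨a20, a11, a10, a01, a00, h30, fun h02 => ?_⟩
  have hl' := hl.pull hd
  generalize c.pull v p e = n at *
  obtain ⟨r, r2, r3, e1, e2, e3⟩ := exists_cubic (-n.c21 / n.c30) (n.c12 / n.c30) (-n.c03 / n.c30)
  have hr : n.c30 * r ^ 3 + n.c21 * r ^ 2 + n.c12 * r + n.c03 = 0 := by
    field_simp at e1 e2 e3
    linear_combination r ^ 2 * e1 - r * e2 + e3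
  have := hl' (r, 1, 0) (0, 0, 1) (by simp only [Cub.T]; linear_combination 6 * hr)
    (by simp [Cub.T, a20, a11, h02]) (by simp [Cub.T, a10, a01]) (by simp [Cub.T, a00])
  simp [Par] at this

omit [CharZero k] in
theorem exists_dir {d1 d2 : k} (h1 : d1 ≠ 0) (h2 : d2 ≠ 0) :
    ∃ s l : k, s ≠ 0 ∧ l ≠ 0 ∧ s = l * d1 ∧ s⁻¹ = l * d2 := by
  obtain ⟨s, hs⟩ := exists_pow_root (d1 / d2) (show 0 < 2 by norm_num)
  have hs0 : s ≠ 0 := by
    rintro rfl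
    exact div_ne_zero h1 h2 (by rw [← hs]; ring)
  refine ⟨s, s / d1, hs0, div_ne_zero hs0 h1, by field_simp, ?_⟩
  field_simp at hs ⊢
  linear_combination -hs

omit [IsAlgClosed k] in
theorem det_dir {s o1 o2 : k} (hs : s ≠ 0) :
    det3 ((s, s⁻¹, 0) : V3 k) (s, -s⁻¹, 0) (o1, o2, 1) ≠ 0 := by
  have : det3 ((s, s⁻¹, 0) : V3 k) (s, -s⁻¹, 0) (o1, o2, 1) = -2 := by
    simp only [det3]
    field_simp
    ring
  rw [this]
  norm_num

theorem nrm_fin0 {c : Cub k} (hl : NoLine c) {o1 o2 d1 d2 : k} {w : V3 k}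
    (h1 : c.T (o1, o2, 1) (o1, o2, 1) (o1, o2, 1) = 0)
    (h2 : c.T (o1, o2, 1) (o1, o2, 1) (d1, d2, 0) = 0)
    (h3 : c.T (o1, o2, 1) (d1, d2, 0) (d1, d2, 0) = 0) (hd : ¬ (d1 = 0 ∧ d2 = 0))
    (hw : c.T (o1, o2, 1) (o1, o2, 1) w ≠ 0) : Nrm c := by
  refine ⟨o1, o2, ?_⟩
  by_cases a1 : d1 = 0
  · have a2 : d2 ≠ 0 := fun h => hd ⟨a1, h⟩
    subst a1
    refine Or.inr (Or.inr (nf1_of hl (by simp [det3]) h1 ?_ ?_ hw))
    · apply mul_left_cancel₀ a2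
      simp only [Cub.T] at h2 ⊢; linear_combination h2
    · apply mul_left_cancel₀ (pow_ne_zero 2 a2)
      simp only [Cub.T] at h3 ⊢; linear_combination h3
  by_cases a2 : d2 = 0
  · subst a2
    refine Or.inr (Or.inl (nf1_of hl (by simp [det3]) h1 ?_ ?_ hw))
    · apply mul_left_cancel₀ a1
      simp only [Cub.T] at h2 ⊢; linear_combination h2
    · apply mul_left_cancel₀ (pow_ne_zero 2 a1)
      simp only [Cub.T] at h3 ⊢; linear_combination h3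
  obtain ⟨s, l, hs, -, e1, e2⟩ := exists_dir a1 a2
  refine Or.inl ⟨s, hs, Or.inl (nf1_of hl (det_dir hs) h1 ?_ ?_ hw)⟩
  · rw [e2, e1]
    simp only [Cub.T] at h2 ⊢; linear_combination l * h2
  · rw [e2, e1]
    simp only [Cub.T] at h3 ⊢; linear_combination l ^ 2 * h3

theorem nrm_fin {c : Cub k} (hl : NoLine c) {p v w : V3 k} (h1 : c.T p p p = 0)
    (h2 : c.T p p v = 0) (h3 : c.T p v v = 0) (hp : ¬ Par v p) (hw : c.T p p w ≠ 0)
    (hf : p.2.2 ≠ 0) : Nrm c := by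
  obtain ⟨p1, p2, p3⟩ := p
  obtain ⟨o1, rfl⟩ : ∃ o, p1 = p3 * o := ⟨p1 / p3, by simp only at hf; field_simp⟩
  obtain ⟨o2, rfl⟩ : ∃ o, p2 = p3 * o := ⟨p2 / p3, by simp only at hf; field_simp⟩
  simp only at hf
  have g1 : c.T (o1, o2, 1) (o1, o2, 1) (o1, o2, 1) = 0 := by
    apply mul_left_cancel₀ (pow_ne_zero 3 hf)
    simp only [Cub.T] at h1 ⊢; linear_combination h1
  have g2 : c.T (o1, o2, 1) (o1, o2, 1) v = 0 := by
    apply mul_left_cancel₀ (pow_ne_zero 2 hf)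
    simp only [Cub.T] at h2 ⊢; linear_combination h2
  have g3 : c.T (o1, o2, 1) v v = 0 := by
    apply mul_left_cancel₀ hf
    simp only [Cub.T] at h3 ⊢; linear_combination h3
  refine nrm_fin0 hl (d1 := v.1 - v.2.2 * o1) (d2 := v.2.1 - v.2.2 * o2) (w := w) g1 ?_ ?_ ?_ ?_
  · simp only [Cub.T] at g1 g2 ⊢; linear_combination g2 - v.2.2 * g1
  · simp only [Cub.T] at g1 g2 g3 ⊢; linear_combination g3 - 2 * v.2.2 * g2 + v.2.2 ^ 2 * g1
  · rintro ⟨a1, a2⟩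
    exact hp ⟨by linear_combination p3 * a2, by linear_combination p3 * a1,
      by linear_combination p3 * o2 * a1 - p3 * o1 * a2⟩
  · intro h
    apply hw
    simp only [Cub.T] at h ⊢; linear_combination p3 ^ 2 * h

theorem nrm_inf {c : Cub k} (hl : NoLine c) {p v w : V3 k} (h1 : c.T p p p = 0)
    (h2 : c.T p p v = 0) (h3 : c.T p v v = 0) (hw : c.T p p w ≠ 0)
    (hf : p.2.2 = 0) (hv : v.2.2 ≠ 0) (a1 : p.1 ≠ 0) (a2 : p.2.1 ≠ 0) : Nrm c := by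
  obtain ⟨p1, p2, p3⟩ := p
  obtain ⟨v1, v2, v3⟩ := v
  simp only at hf hv a1 a2
  subst hf
  obtain ⟨o1, rfl⟩ : ∃ o, v1 = v3 * o := ⟨v1 / v3, by field_simp⟩
  obtain ⟨o2, rfl⟩ : ∃ o, v2 = v3 * o := ⟨v2 / v3, by field_simp⟩
  obtain ⟨s, l, hs, hl0, e1, e2⟩ := exists_dir a1 a2
  refine ⟨o1, o2, Or.inl ⟨s, hs, Or.inr (Or.inr (nf4_of hl (w := w) (det_dir hs) ?_ ?_ ?_ ?_))⟩⟩
  all_goals rw [e2, e1]
  · simp only [Cub.T] at h1 ⊢; linear_combination l ^ 3 * h1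
  · apply mul_left_cancel₀ hv
    simp only [Cub.T] at h2 ⊢; linear_combination l ^ 2 * h2
  · apply mul_left_cancel₀ (pow_ne_zero 2 hv)
    simp only [Cub.T] at h3 ⊢; linear_combination l * h3
  · intro h
    apply hw
    apply mul_left_cancel₀ (pow_ne_zero 2 hl0)
    simp only [Cub.T] at h ⊢; linear_combination h

theorem nrm_cusp {c : Cub k} (hl : NoLine c) {e : V3 k} {d1 d2 : k} (h1 : ∀ w, c.T e e w = 0)
    (h2 : ∀ w, c.T e (d1, d2, 0) w = 0) (he : e.2.2 ≠ 0) (a1 : d1 ≠ 0) (a2 : d2 ≠ 0) : Nrm c := by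
  obtain ⟨p1, p2, p3⟩ := e
  simp only at he
  obtain ⟨o1, rfl⟩ : ∃ o, p1 = p3 * o := ⟨p1 / p3, by field_simp⟩
  obtain ⟨o2, rfl⟩ : ∃ o, p2 = p3 * o := ⟨p2 / p3, by field_simp⟩
  obtain ⟨s, l, hs, hl0, e1, e2⟩ := exists_dir a1 a2
  refine ⟨o1, o2, Or.inl ⟨s, hs, Or.inr (Or.inl (nf3_of hl (det_dir hs) (fun w => ?_)
    fun w => ?_))⟩⟩
  · have := h1 w
    apply mul_left_cancel₀ (pow_ne_zero 2 he)
    simp only [Cub.T] at this ⊢; linear_combination this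
  · have := h2 w
    rw [e2, e1]
    apply mul_left_cancel₀ he
    simp only [Cub.T] at this ⊢; linear_combination l * this

end Ivrii.NT
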