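import Mathlib
import Pool.Agent.P.MP_7a8567_an.NT.Norm

/-! Existence of the normal forms. -/

set_option autoImplicit false

namespace Ivrii.NT

variable {k : Type*} [Field k] [CharZero k]

/-- The real structure on homogeneous coordinates. -/
def sig (τ : k →+* k) (a : V3 k) : V3 k := (τ a.2.1, τ a.1, τ a.2.2)

/-- Reality of a cubic. -/
structure RealCub (τ : k →+* k) (κ : k) (c : Cub k) : Prop where
  c30 : τ c.c30 = κ * c.c03
  c21 : τ c.c21 = κ * c.c12
  c12 : τ c.c12 = κ * c.c21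
  c03 : τ c.c03 = κ * c.c30
  c20 : τ c.c20 = κ * c.c02
  c11 : τ c.c11 = κ * c.c11
  c02 : τ c.c02 = κ * c.c20
  c10 : τ c.c10 = κ * c.c01
  c01 : τ c.c01 = κ * c.c10
  c00 : τ c.c00 = κ * c.c00

omit [CharZero k] in
theorem RealCub.T {τ : k →+* k} {κ : k} {c : Cub k} (h : RealCub τ κ c) (a b d : V3 k) :
    τ (c.T a b d) = κ * c.T (sig τ a) (sig τ b) (sig τ d) := by
  simp only [Cub.T, sig, map_add, map_mul, map_ofNat, h.c30, h.c21, h.c12, h.c03, h.c20, h.c11,
    h.c02, h.c10, h.c01, h.c00]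
  ring

omit [CharZero k] in
theorem lin1 (v p e : V3 k) : lin v p e (1, 0, 0) = v := by simp [lin]

omit [CharZero k] in
theorem lin2 (v p e : V3 k) : lin v p e (0, 1, 0) = p := by simp [lin]

omit [CharZero k] in
theorem lin3 (v p e : V3 k) : lin v p e (0, 0, 1) = e := by simp [lin]

variable [IsAlgClosed k]

theorem nrm_of_cusp {τ : k →+* k} (hτ : ∀ a, τ (τ a) = a) {κ : k} {c : Cub k}
    (hr : RealCub τ κ c) (hl : NoLine c) {v p e : V3 k} (hd : det3 v p e ≠ 0)
    (hw : WeiS (c.pull v p e)) (h10 : (c.pull v p e).c10 = 0) (h00 : (c.pull v p e).c00 = 0) :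
    Nrm c := by
  obtain ⟨h03, h12, h21, h11, h01, h20, h02, h30⟩ := hw
  have hT := T_pull c v p e
  generalize c.pull v p e = n at *
  have tv : c.T v v v ≠ 0 := by
    have := hT (1, 0, 0) (1, 0, 0) (1, 0, 0)
    rw [lin1] at this
    rw [← this]; simp [Cub.T, h30]
  have hκ : κ ≠ 0 := by
    rintro rfl
    have := hr.T v v v
    simp [tv] at this
  have hσ : ∀ a b d, c.T a b d = 0 → c.T (sig τ a) (sig τ b) (sig τ d) = 0 := by
    intro a b d h
    have := hr.T a b d
    rw [h, map_zero] at this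
    exact (mul_eq_zero.1 this.symm).resolve_left hκ
  have hσσ : ∀ a, sig τ (sig τ a) = a := fun a => by simp [sig, hτ]
  have tee : ∀ w, c.T e e w = 0 := by
    intro w
    obtain ⟨a, rfl⟩ := exists_lin hd w
    have := hT (0, 0, 1) (0, 0, 1) a
    rw [lin3] at this
    rw [← this]; simp [Cub.T, h10, h01, h00]
  have tev : ∀ w, c.T e v w = 0 := by
    intro w
    obtain ⟨a, rfl⟩ := exists_lin hd w
    have := hT (0, 0, 1) (1, 0, 0) a
    rw [lin3, lin1] at this
    rw [← this]; simp [Cub.T, h10, h11, h20]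
  have tppe : c.T p p e ≠ 0 := by
    have := hT (0, 1, 0) (0, 1, 0) (0, 0, 1)
    rw [lin2, lin3] at this
    rw [← this]; simp [Cub.T, h02]
  have tppp : c.T p p p = 0 := by
    have := hT (0, 1, 0) (0, 1, 0) (0, 1, 0)
    rw [lin2] at this
    rw [← this]; simp [Cub.T, h03]
  have tppv : c.T p p v = 0 := by
    have := hT (0, 1, 0) (0, 1, 0) (1, 0, 0)
    rw [lin2, lin1] at this
    rw [← this]; simp [Cub.T, h12]
  have tpvv : c.T p v v = 0 := by
    have := hT (0, 1, 0) (1, 0, 0) (1, 0, 0)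
    rw [lin2, lin1] at this
    rw [← this]; simp [Cub.T, h21]
  have hpar : ¬ Par v p := fun h => hd ((par_iff _ _).1 h e)
  obtain ⟨Z, hZ⟩ : ∃ Z : k, sig τ e = (Z * e.1, Z * e.2.1, Z * e.2.2) := by
    obtain ⟨a, ha⟩ := exists_lin hd (sig τ e)
    have g : ∀ w, n.T a a w = 0 := by
      intro w
      rw [hT, ha, ← hσσ (lin v p e w)]
      exact hσ _ _ _ (tee _)
    have g1 := g (1, 0, 0)
    have g2 := g (0, 0, 1)
    simp [Cub.T, h03, h12, h21, h11, h01, h20, h10, h00, h02, h30] at g1 g2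
    refine ⟨a.2.2, ?_⟩
    rw [← ha]; simp [lin, g1, g2]
  have z1 : τ e.2.1 = Z * e.1 := congrArg Prod.fst hZ
  have z2 : τ e.1 = Z * e.2.1 := congrArg (fun a => a.2.1) hZ
  have z3 : τ e.2.2 = Z * e.2.2 := congrArg (fun a => a.2.2) hZ
  by_cases he : e.2.2 = 0
  · by_cases hp : p.2.2 = 0
    swap
    · exact nrm_fin hl tppp tppv tpvv hpar tppe hp
    have hv : v.2.2 ≠ 0 := fun h => hd (by simp [det3, h, he, hp])
    have e1 : e.1 ≠ 0 := by
      intro h
      have h2 : e.2.1 = 0 := by rw [h] at z1; simpa using z1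
      exact hd (by simp [det3, h, h2, he])
    have e2 : e.2.1 ≠ 0 := by
      intro h
      have h2 : e.1 = 0 := by rw [h] at z2; simpa using z2
      exact e1 h2
    have hp0 : ¬ (p.1 = 0 ∧ p.2.1 = 0) := fun h => hd (by simp [det3, h.1, h.2, hp])
    obtain ⟨a, ha⟩ := exists_lin hd (sig τ p)
    have g : n.T a a a = 0 := by rw [hT, ha]; exact hσ _ _ _ tppp
    have a1 : a.1 * v.1 + a.2.1 * p.1 + a.2.2 * e.1 = τ p.2.1 := congrArg Prod.fst ha
    have a2 : a.1 * v.2.1 + a.2.1 * p.2.1 + a.2.2 * e.2.1 = τ p.1 := congrArg (fun a => a.2.1) ha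
    have a3 : a.1 * v.2.2 + a.2.1 * p.2.2 + a.2.2 * e.2.2 = τ p.2.2 := congrArg (fun a => a.2.2) ha
    have a0 : a.1 = 0 := by simpa [hp, he, hv] using a3
    have g' : a.2.1 = 0 ∨ a.2.2 = 0 := by
      simp only [Cub.T, h03, h12, h21, h11, h01, h20, h10, h00, a0] at g
      have : n.c02 * (a.2.1 ^ 2 * a.2.2) = 0 := by linear_combination g / 6
      simpa [h02] using this
    refine nrm_inf hl tppp tppv tpvv tppe hp hv (fun h => ?_) fun h => ?_
    · have h2 : p.2.1 ≠ 0 := fun h2 => hp0 ⟨h, h2⟩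
      rcases g' with g' | g'
      · have : a.2.2 = 0 := by simpa [a0, g', h, e2] using a2
        exact h2 (by simpa [a0, g', this] using a1.symm)
      · exact h2 (by simpa [a0, g', h] using a1.symm)
    · have h2 : p.1 ≠ 0 := fun h2 => hp0 ⟨h2, h⟩
      rcases g' with g' | g'
      · have : a.2.2 = 0 := by simpa [a0, g', h, e1] using a1
        exact h2 (by simpa [a0, g', this] using a2.symm)
      · exact h2 (by simpa [a0, g', h] using a2.symm)
  · have hZ0 : Z ≠ 0 := by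
      rintro rfl
      exact he (by simpa using z3)
    have td : ∀ w, c.T e (e.2.2 * v.1 - v.2.2 * e.1, e.2.2 * v.2.1 - v.2.2 * e.2.1, 0) w = 0 := by
      intro w
      have g1 := tee w
      have g2 := tev w
      simp only [Cub.T] at g1 g2 ⊢
      linear_combination e.2.2 * g2 - v.2.2 * g1
    have hd0 : ¬ (e.2.2 * v.1 - v.2.2 * e.1 = 0 ∧ e.2.2 * v.2.1 - v.2.2 * e.2.1 = 0) := by
      rintro ⟨b1, b2⟩
      apply hd
      apply mul_left_cancel₀ he
      simp only [det3]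
      linear_combination (p.2.1 * e.2.2 - p.2.2 * e.2.1) * b1 - (p.1 * e.2.2 - p.2.2 * e.1) * b2
    generalize e.2.2 * v.1 - v.2.2 * e.1 = d1 at td hd0
    generalize e.2.2 * v.2.1 - v.2.2 * e.2.1 = d2 at td hd0
    have td' : ∀ w, c.T e (τ d2, τ d1, 0) w = 0 := by
      intro w
      have := hσ _ _ _ (td (sig τ w))
      rw [hσσ, hZ] at this
      apply mul_left_cancel₀ hZ0
      simp only [Cub.T, sig, map_zero] at this ⊢
      linear_combination this
    have key : ∀ a b : k, a ≠ 0 → b ≠ 0 → c.T e (a, 0, 0) p = 0 → c.T e (0, b, 0) p = 0 →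
        False := by
      intro a b ha hb g1 g2
      apply tppe
      have g3 := tee p
      apply mul_left_cancel₀ (mul_ne_zero he (mul_ne_zero ha hb))
      simp only [Cub.T] at g1 g2 g3 ⊢
      linear_combination a * b * p.2.2 * g3 + b * (e.2.2 * p.1 - p.2.2 * e.1) * g1
        + a * (e.2.2 * p.2.1 - p.2.2 * e.2.1) * g2
    refine nrm_cusp hl tee td he (fun h => ?_) fun h => ?_
    · have h2 : d2 ≠ 0 := fun h2 => hd0 ⟨h, h2⟩
      subst h
      exact key (τ d2) d2 (by simpa using h2) h2 (by simpa using td' p) (td p)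
    · have h2 : d1 ≠ 0 := fun h2 => hd0 ⟨h2, h⟩
      subst h
      exact key d1 (τ d1) h2 (by simpa using h2) (td p) (by simpa using td' p)

theorem exists_div3 {c b1 b0 : k} (hc : c ≠ 0) (hb : ¬ (b1 = 0 ∧ b0 = 0)) : ∃ x,
    3 * c ^ 2 * x ^ 4 + 6 * c * b1 * x ^ 2 + 12 * c * b0 * x - b1 ^ 2 = 0 ∧
    c * x ^ 3 + b1 * x + b0 ≠ 0 := by
  open Polynomial in
  obtain ⟨x, hx⟩ := IsAlgClosed.exists_root
    (X ^ 4 + C (2 * b1 / c) * X ^ 2 + C (4 * b0 / c) * X - C (b1 ^ 2 / (3 * c ^ 2)) : k[X])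
    (by
      have : (X ^ 4 + C (2 * b1 / c) * X ^ 2 + C (4 * b0 / c) * X - C (b1 ^ 2 / (3 * c ^ 2)) :
        k[X]).degree = 4 := by compute_degree!
      rw [this]; decide)
  simp only [Polynomial.IsRoot, Polynomial.eval_add, Polynomial.eval_sub, Polynomial.eval_pow,
    Polynomial.eval_X, Polynomial.eval_mul, Polynomial.eval_C] at hx
  have hx' : 3 * c ^ 2 * x ^ 4 + 6 * c * b1 * x ^ 2 + 12 * c * b0 * x - b1 ^ 2 = 0 := by
    field_simp at hx
    linear_combination hx
  by_cases hf : c * x ^ 3 + b1 * x + b0 = 0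
  · have h1 : (3 * c * x ^ 2 + b1) ^ 2 = 0 := by linear_combination 12 * c * x * hf - hx'
    have h2 : b1 = -3 * c * x ^ 2 := by linear_combination pow_eq_zero_iff two_ne_zero |>.1 h1
    have h3 : b0 = 2 * c * x ^ 3 := by rw [h2] at hf; linear_combination hf
    have hx0 : x ≠ 0 := by
      rintro rfl
      exact hb ⟨by simpa using h2, by simpa using h3⟩
    refine ⟨-3 * x, by rw [h2, h3]; ring, fun h => ?_⟩
    rw [h2, h3] at h
    exact mul_ne_zero hc (pow_ne_zero 3 hx0) (by linear_combination -h / 16)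
  · exact ⟨x, hx', hf⟩

theorem exists_nrm {τ : k →+* k} (hτ : ∀ a, τ (τ a) = a) {κ : k} {c : Cub k}
    (hr : RealCub τ κ c) (hl : NoLine c) : Nrm c := by
  obtain ⟨v, p, e, hd, hw⟩ := wei hl
  by_cases hb : (c.pull v p e).c10 = 0 ∧ (c.pull v p e).c00 = 0
  · exact nrm_of_cusp hτ hr hl hd hw hb.1 hb.2
  obtain ⟨h03, h12, h21, h11, h01, h20, h02, h30⟩ := hw
  have hT := T_pull c v p e
  generalize c.pull v p e = n at *
  obtain ⟨x, hx, hf⟩ := exists_div3 h30 hb
  have hpar : ∀ a b, ¬ Par a b → ¬ Par (lin v p e a) (lin v p e b) :=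
    fun a b h h' => h (par_of_lin hd h')
  have tppe : c.T p p e ≠ 0 := by
    have := hT (0, 1, 0) (0, 1, 0) (0, 0, 1)
    rw [lin2, lin3] at this
    rw [← this]; simp [Cub.T, h02]
  have tppp : c.T p p p = 0 := by
    have := hT (0, 1, 0) (0, 1, 0) (0, 1, 0)
    rw [lin2] at this
    rw [← this]; simp [Cub.T, h03]
  have tppv : c.T p p v = 0 := by
    have := hT (0, 1, 0) (0, 1, 0) (1, 0, 0)
    rw [lin2, lin1] at this
    rw [← this]; simp [Cub.T, h12]
  have tpvv : c.T p v v = 0 := by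
    have := hT (0, 1, 0) (1, 0, 0) (1, 0, 0)
    rw [lin2, lin1] at this
    rw [← this]; simp [Cub.T, h21]
  by_cases hp : p.2.2 = 0
  swap
  · exact nrm_fin hl tppp tppv tpvv (fun h => hd ((par_iff _ _).1 h e)) tppe hp
  have key : ∀ y : k, n.c02 * y ^ 2 + (n.c30 * x ^ 3 + n.c10 * x + n.c00) = 0 →
      Nrm c ∨ ((lin v p e (x, y, 1)).2.2 = 0 ∧
        ((lin v p e (x, y, 1)).1 = 0 ∨ (lin v p e (x, y, 1)).2.1 = 0)) := by
    intro y hy
    have hy0 : y ≠ 0 := by
      rintro rfl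
      exact hf (by linear_combination hy)
    obtain ⟨m, hm⟩ : ∃ m, 2 * n.c02 * y * m + (3 * n.c30 * x ^ 2 + n.c10) = 0 :=
      ⟨-(3 * n.c30 * x ^ 2 + n.c10) / (2 * n.c02 * y), by field_simp; ring⟩
    have hm2 : n.c02 * m ^ 2 + 3 * n.c30 * x = 0 := by
      apply mul_left_cancel₀ (mul_ne_zero h02 (pow_ne_zero 2 hy0))
      linear_combination (2 * n.c02 * y * m - (3 * n.c30 * x ^ 2 + n.c10)) / 4 * hm
        + 3 * n.c30 * x * hy - hx / 4
    have t1 : c.T (lin v p e (x, y, 1)) (lin v p e (x, y, 1)) (lin v p e (x, y, 1)) = 0 := by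
      rw [← hT]; simp only [Cub.T, h03, h12, h21, h11, h01, h20]; linear_combination 6 * hy
    have t2 : c.T (lin v p e (x, y, 1)) (lin v p e (x, y, 1)) (lin v p e (1, m, 0)) = 0 := by
      rw [← hT]; simp only [Cub.T, h03, h12, h21, h11, h01, h20]; linear_combination 2 * hm
    have t3 : c.T (lin v p e (x, y, 1)) (lin v p e (1, m, 0)) (lin v p e (1, m, 0)) = 0 := by
      rw [← hT]; simp only [Cub.T, h03, h12, h21, h11, h01, h20]; linear_combination 2 * hm2
    have t4 : c.T (lin v p e (x, y, 1)) (lin v p e (x, y, 1)) (lin v p e (0, 1, 0)) ≠ 0 := by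
      rw [← hT]; simp only [Cub.T, h03, h12, h21, h11, h01, h20]
      intro h
      exact mul_ne_zero h02 hy0 (by linear_combination h / 4)
    by_cases hq : (lin v p e (x, y, 1)).2.2 = 0
    swap
    · exact Or.inl (nrm_fin hl t1 t2 t3 (hpar _ _ (by simp [Par])) t4 hq)
    by_cases a1 : (lin v p e (x, y, 1)).1 = 0
    · exact Or.inr ⟨hq, Or.inl a1⟩
    by_cases a2 : (lin v p e (x, y, 1)).2.1 = 0
    · exact Or.inr ⟨hq, Or.inr a2⟩
    refine Or.inl (nrm_inf hl t1 t2 t3 t4 hq ?_ a1 a2)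
    intro h
    have hv : v.2.2 = 0 := by simpa [lin, hp] using h
    have he : e.2.2 = 0 := by simpa [lin, hp, hv] using hq
    exact hd (by simp [det3, hp, hv, he])
  obtain ⟨y, hy⟩ := exists_pow_root (-(n.c30 * x ^ 3 + n.c10 * x + n.c00) / n.c02)
    (show 0 < 2 by norm_num)
  have hy' : n.c02 * y ^ 2 + (n.c30 * x ^ 3 + n.c10 * x + n.c00) = 0 := by
    rw [hy]; field_simp; ring
  have hy0 : y ≠ 0 := by
    rintro rfl
    exact hf (by linear_combination hy')
  rcases key y hy' with h | ⟨q1, q2⟩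
  · exact h
  rcases key (-y) (by linear_combination hy') with h | ⟨r1, r2⟩
  · exact h
  have hv : v.2.2 ≠ 0 := by
    intro hv
    have he : e.2.2 = 0 := by simpa [lin, hp, hv] using q1
    exact hd (by simp [det3, hp, hv, he])
  have n1 := hpar (0, 1, 0) (x, y, 1) (by simp [Par])
  have n2 := hpar (0, 1, 0) (x, -y, 1) (by simp [Par])
  have n3 := hpar (x, y, 1) (x, -y, 1) fun h => hy0 (by linear_combination h.1 / 2)
  rw [lin2] at n1 n2
  generalize lin v p e (x, y, 1) = q at *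
  generalize lin v p e (x, -y, 1) = r at *
  refine nrm_inf hl tppp tppv tpvv tppe hp hv (fun h => ?_) fun h => ?_
  · rcases q2 with q2 | q2
    · exact n1 (by simp [Par, h, hp, q1, q2])
    rcases r2 with r2 | r2
    · exact n2 (by simp [Par, h, hp, r1, r2])
    · exact n3 (by simp [Par, q1, q2, r1, r2])
  · rcases q2 with q2 | q2
    swap
    · exact n1 (by simp [Par, h, hp, q1, q2])
    rcases r2 with r2 | r2
    swap
    · exact n2 (by simp [Par, h, hp, r1, r2])
    · exact n3 (by simp [Par, q1, q2, r1, r2])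

end Ivrii.NT
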