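import Mathlib
import Pool.Agent.P.MP_7a8567_an.NT.Cub

/-! Places of a field as relations. -/

set_option autoImplicit false

namespace Ivrii.NT

/-- A place: `R a b` says that `a` is finite with residue `b`. -/
structure Place (K F : Type*) [Field K] [Field F] where
  R : K → F → Prop
  one : R 1 1
  add : ∀ {a b a' b'}, R a b → R a' b' → R (a + a') (b + b')
  mul : ∀ {a b a' b'}, R a b → R a' b' → R (a * a') (b * b')
  neg : ∀ {a b}, R a b → R (-a) (-b)
  uniq : ∀ {a b b'}, R a b → R a b' → b = b'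
  dich : ∀ a, (∃ b, R a b) ∨ R a⁻¹ 0

namespace Place

variable {K F : Type*} [Field K] [Field F] (P : Place K F)

theorem zero : P.R 0 0 := by simpa using P.add P.one (P.neg P.one)

theorem two : P.R 2 2 := by simpa [one_add_one_eq_two] using P.add P.one P.one

theorem three : P.R 3 3 := by
  have := P.add P.two P.one
  norm_num at this
  exact this

variable {P}

theorem sub {a a' : K} {b b' : F} (h : P.R a b) (h' : P.R a' b') : P.R (a - a') (b - b') := by
  simpa [sub_eq_add_neg] using P.add h (P.neg h')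

theorem pow {a : K} {b : F} (h : P.R a b) (n : ℕ) : P.R (a ^ n) (b ^ n) := by
  induction n with
  | zero => simpa using P.one
  | succ n ih => rw [pow_succ, pow_succ]; exact P.mul ih h

theorem ne_zero {a : K} {b : F} (h : P.R a b) (hb : b ≠ 0) : a ≠ 0 := by
  rintro rfl
  exact hb (P.uniq h P.zero)

theorem ne_of_ne {a a' : K} {b b' : F} (h : P.R a b) (h' : P.R a' b') (hb : b ≠ b') : a ≠ a' := by
  rintro rfl
  exact hb (P.uniq h h')

theorem inv {a : K} {b : F} (h : P.R a b) (hb : b ≠ 0) : P.R a⁻¹ b⁻¹ := by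
  have ha := ne_zero h hb
  rcases P.dich a⁻¹ with ⟨b', h'⟩ | h'
  · have h1 := P.mul h h'
    rw [mul_inv_cancel₀ ha] at h1
    have h2 := P.uniq h1 P.one
    rw [← eq_inv_of_mul_eq_one_right h2]
    exact h'
  · rw [inv_inv] at h'
    exact absurd (P.uniq h h') hb

theorem div {a a' : K} {b b' : F} (h : P.R a b) (h' : P.R a' b') (hb : b' ≠ 0) :
    P.R (a / a') (b / b') := by
  rw [div_eq_mul_inv, div_eq_mul_inv]; exact P.mul h (inv h' hb)

theorem congr {a a' : K} {b b' : F} (h : P.R a b) (ha : a = a') (hb : b = b') : P.R a' b' :=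
  ha ▸ hb ▸ h

theorem root_fin {v v' : K} {s p : F} (hs : P.R (v + v') s) (hp : P.R (v * v') p) :
    ∃ r, P.R v r := by
  rcases P.dich v with h | h
  · exact h
  by_cases hv : v = 0
  · exact ⟨0, hv ▸ P.zero⟩
  have h1 := sub (P.mul hs h) (P.mul hp (P.mul h h))
  have h2 : (v + v') * v⁻¹ - v * v' * (v⁻¹ * v⁻¹) = 1 := by field_simp; ring
  rw [h2] at h1
  have := P.uniq h1 P.one
  simp at this

theorem roots {v v' : K} {u u' : F} (hs : P.R (v + v') (u + u')) (hp : P.R (v * v') (u * u')) :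
    (P.R v u ∧ P.R v' u') ∨ (P.R v u' ∧ P.R v' u) := by
  obtain ⟨r, hr⟩ := root_fin hs hp
  have hr' : P.R v' (u + u' - r) := congr (sub hs hr) (by ring) rfl
  have h1 := P.uniq (P.mul hr hr') hp
  have h2 : (r - u) * (r - u') = 0 := by linear_combination -h1
  rcases mul_eq_zero.1 h2 with h | h
  · obtain rfl : r = u := by linear_combination h
    exact Or.inl ⟨hr, congr hr' rfl (by ring)⟩
  · obtain rfl : r = u' := by linear_combination h
    exact Or.inr ⟨hr, congr hr' rfl (by ring)⟩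

/-- Coefficientwise residues. -/
structure RC (P : Place K F) (c : Cub K) (d : Cub F) : Prop where
  c30 : P.R c.c30 d.c30
  c21 : P.R c.c21 d.c21
  c12 : P.R c.c12 d.c12
  c03 : P.R c.c03 d.c03
  c20 : P.R c.c20 d.c20
  c11 : P.R c.c11 d.c11
  c02 : P.R c.c02 d.c02
  c10 : P.R c.c10 d.c10
  c01 : P.R c.c01 d.c01
  c00 : P.R c.c00 d.c00

variable {c : Cub K} {d : Cub F} {x y m : K} {x' y' m' : F}

theorem RC.ev (h : RC P c d) (hx : P.R x x') (hy : P.R y y') : P.R (c.ev x y) (d.ev x' y') := by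
  unfold Cub.ev
  exact P.add (P.add (P.add (P.add (P.add (P.add (P.add (P.add (P.add
    (P.mul h.c30 (pow hx 3)) (P.mul h.c21 (P.mul (pow hx 2) hy)))
    (P.mul h.c12 (P.mul hx (pow hy 2)))) (P.mul h.c03 (pow hy 3))) (P.mul h.c20 (pow hx 2)))
    (P.mul h.c11 (P.mul hx hy))) (P.mul h.c02 (pow hy 2))) (P.mul h.c10 hx)) (P.mul h.c01 hy))
    h.c00

theorem RC.dx (h : RC P c d) (hx : P.R x x') (hy : P.R y y') : P.R (c.dx x y) (d.dx x' y') := by
  unfold Cub.dx
  exact P.add (P.add (P.add (P.add (P.add (P.mul (P.mul P.three h.c30) (pow hx 2))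
    (P.mul (P.mul P.two h.c21) (P.mul hx hy))) (P.mul h.c12 (pow hy 2)))
    (P.mul (P.mul P.two h.c20) hx)) (P.mul h.c11 hy)) h.c10

theorem RC.dy (h : RC P c d) (hx : P.R x x') (hy : P.R y y') : P.R (c.dy x y) (d.dy x' y') := by
  unfold Cub.dy
  exact P.add (P.add (P.add (P.add (P.add (P.mul h.c21 (pow hx 2))
    (P.mul (P.mul P.two h.c12) (P.mul hx hy))) (P.mul (P.mul P.three h.c03) (pow hy 2)))
    (P.mul h.c11 hx)) (P.mul (P.mul P.two h.c02) hy)) h.c01

theorem RC.a3 (h : RC P c d) (hm : P.R m m') : P.R (c.a3 m) (d.a3 m') := by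
  unfold Cub.a3
  exact P.add (P.add (P.add h.c30 (P.mul h.c21 hm)) (P.mul h.c12 (pow hm 2)))
    (P.mul h.c03 (pow hm 3))

theorem RC.a2 (h : RC P c d) (hm : P.R m m') (hx : P.R x x') (hy : P.R y y') :
    P.R (c.a2 m x y) (d.a2 m' x' y') := by
  unfold Cub.a2
  exact P.add (P.add (P.add (P.add (P.add (P.add (P.mul (P.mul P.three h.c30) hx)
    (P.mul h.c21 (P.add (P.mul (P.mul P.two hx) hm) hy)))
    (P.mul h.c12 (P.add (P.mul hx (pow hm 2)) (P.mul (P.mul P.two hy) hm))))
    (P.mul (P.mul P.three h.c03) (P.mul hy (pow hm 2)))) h.c20) (P.mul h.c11 hm))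
    (P.mul h.c02 (pow hm 2))

end Place

/-- The place of a valuation subring. -/
noncomputable def ofVal {K : Type*} [Field K] (O : ValuationSubring K) :
    Place K (IsLocalRing.ResidueField O) where
  R a b := ∃ h : a ∈ O, IsLocalRing.residue O ⟨a, h⟩ = b
  one := ⟨O.one_mem, map_one _⟩
  add := by
    rintro a b a' b' ⟨h, rfl⟩ ⟨h', rfl⟩
    exact ⟨O.add_mem _ _ h h', by rw [← map_add]; rfl⟩
  mul := by
    rintro a b a' b' ⟨h, rfl⟩ ⟨h', rfl⟩
    exact ⟨O.mul_mem _ _ h h', by rw [← map_mul]; rfl⟩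
  neg := by
    rintro a b ⟨h, rfl⟩
    exact ⟨O.neg_mem _ h, by rw [← map_neg]; rfl⟩
  uniq := by
    rintro a b b' ⟨h, rfl⟩ ⟨h', rfl⟩
    rfl
  dich := by
    intro a
    by_cases h : a ∈ O
    · exact Or.inl ⟨_, h, rfl⟩
    · have h' : a⁻¹ ∈ O := (O.mem_or_inv_mem a).resolve_left h
      refine Or.inr ⟨h', ?_⟩
      rw [IsLocalRing.residue_eq_zero_iff, IsLocalRing.mem_maximalIdeal, mem_nonunits_iff]
      intro hu
      obtain ⟨b, hb⟩ := hu.exists_right_inv
      have ha : a ≠ 0 := by rintro rfl; exact h O.zero_mem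
      have h2 : a⁻¹ * (b : K) = 1 := by simpa using congrArg Subtype.val hb
      have h3 : (b : K) = a := by field_simp at h2; exact h2
      exact h (h3 ▸ b.2)

theorem mem_range_of_algebraic {k : Type*} {K : Type*} [Field k] [IsAlgClosed k] [Field K]
    [Algebra k K] {x : K} (h : IsAlgebraic k x) : x ∈ Set.range (algebraMap k K) :=
  minpoly.degree_eq_one_iff.1
    (IsAlgClosed.degree_eq_one_of_irreducible k (minpoly.irreducible h.isIntegral))

theorem exists_place {k : Type*} {K : Type*} [Field k] [IsAlgClosed k] [Field K] [Algebra k K]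
    {x : K} (hx : x ∉ Set.range (algebraMap k K)) :
    ∃ (O : ValuationSubring K) (f : k →+* IsLocalRing.ResidueField O),
      (∀ a, (ofVal O).R (algebraMap k K a) (f a)) ∧ (ofVal O).R x 0 := by
  have htr : Transcendental k x := by
    intro halg
    exact hx (mem_range_of_algebraic halg)
  let A : Subring K := (Polynomial.aeval (R := k) x).toRingHom.range
  have hxA : x ∈ A := ⟨Polynomial.X, by simp⟩
  have hI : Ideal.span {(⟨x, hxA⟩ : A)} ≠ ⊤ := by
    rw [Ne, Ideal.span_singleton_eq_top]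
    intro hu
    obtain ⟨⟨b, p, hp⟩, hb⟩ := hu.exists_right_inv
    have h1 : x * b = 1 := by simpa using congrArg Subtype.val hb
    apply htr
    refine ⟨Polynomial.X * p - 1, ?_, ?_⟩
    · intro h0
      have := congrArg (Polynomial.eval 0) h0
      simp at this
    · have hp' : Polynomial.aeval x p = b := hp
      simp [hp', h1]
  obtain ⟨O, hO, hm⟩ := Ideal.image_subset_nonunits_valuationSubring _ hI
  have hk : ∀ a, algebraMap k K a ∈ O := fun a => hO ⟨Polynomial.C a, by simp⟩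
  let g : k →+* O := (algebraMap k K).codRestrict O.toSubring hk
  refine ⟨O, (IsLocalRing.residue O).comp g, fun a => ⟨hk a, rfl⟩, hO hxA, ?_⟩
  have h2 : x ∈ O.nonunits := hm ⟨⟨x, hxA⟩, Ideal.subset_span rfl, rfl⟩
  rw [IsLocalRing.residue_eq_zero_iff]
  exact (ValuationSubring.coe_mem_nonunits_iff (a := ⟨x, hO hxA⟩)).1 h2

end Ivrii.NT
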