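import Mathlib
import Pool.Agent.P.MP_7a8567_an.NT.Place

/-! Lifting good flags from the residue field. -/

set_option autoImplicit false

namespace Ivrii.NT

variable {K F : Type*} [Field K] [Field F]

/-- The reflection law on slopes. -/
def rf (b : Bool) (μ m : K) : K :=
  if b then m ^ 2 / μ else (2 * m - μ * (1 + m ^ 2)) / (1 + m ^ 2 - 2 * m * μ)

/-- Its limit for small slopes. -/
def rf0 (b : Bool) (μ m : F) : F := if b then m ^ 2 / μ else 2 * m - μ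

/-- Tangent slope. -/
def Cub.sl (c : Cub K) (x y : K) : K := -c.dx x y / c.dy x y

def Nx0 (d : Cub F) (b : Bool) (G0 : F → F → F → Prop) (m x y u : F) : Prop :=
  d.dy (x + u) (y + m * u) ≠ 0 ∧ d.dx (x + u) (y + m * u) ≠ 0 ∧
    G0 (rf0 b m (d.sl (x + u) (y + m * u))) (x + u) (y + m * u)

/-- The limit model. -/
structure Model (d : Cub F) (b : Bool) (G0 : F → F → F → Prop) (x0 y0 : F) : Prop where
  step : ∀ m x y, G0 m x y → d.ev x y = 0 → m ≠ 0 ∧ ∃ u1 u2, d.a3 m ≠ 0 ∧ u1 ≠ 0 ∧ u2 ≠ 0 ∧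
    u1 ≠ u2 ∧ d.a2 m x y = -d.a3 m * (u1 + u2) ∧
    d.dx x y + d.dy x y * m = d.a3 m * (u1 * u2) ∧ Nx0 d b G0 m x y u1 ∧ Nx0 d b G0 m x y u2
  start : d.dy x0 y0 ≠ 0 ∧ d.dx x0 y0 ≠ 0 ∧ ∃ u, d.a3 (d.sl x0 y0) ≠ 0 ∧ u ≠ 0 ∧
    d.a2 (d.sl x0 y0) x0 y0 = -d.a3 (d.sl x0 y0) * u ∧ Nx0 d b G0 (d.sl x0 y0) x0 y0 u

def Sm (μ m : K) : Prop := μ ≠ 0 ∧ m ≠ 0 ∧ 1 - m ^ 2 ≠ 0 ∧ 1 + m ^ 2 - 2 * m * μ ≠ 0

def Nx (n : Cub K) (b : Bool) (G : K → K → K → Prop) (μ x y u : K) : Prop :=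
  n.dy (x + u) (y + μ * u) ≠ 0 ∧ Sm μ (n.sl (x + u) (y + μ * u)) ∧
    G (rf b μ (n.sl (x + u) (y + μ * u))) (x + u) (y + μ * u)

/-- The statement for slopes. -/
def Slope (n : Cub K) (b : Bool) (x0 y0 : K) : Prop :=
  ∃ G : K → K → K → Prop,
    (∀ μ x y, G μ x y → n.ev x y = 0 ∧ ∃ lc u1 u2 : K, lc ≠ 0 ∧ u1 ≠ 0 ∧ u2 ≠ 0 ∧ u1 ≠ u2 ∧
      (∀ u, n.ev (x + u) (y + μ * u) = lc * (u * (u - u1) * (u - u2))) ∧
      Nx n b G μ x y u1 ∧ Nx n b G μ x y u2) ∧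
    n.dy x0 y0 ≠ 0 ∧ Sm (n.sl x0 y0) (n.sl x0 y0) ∧ ∃ lc uB : K, lc ≠ 0 ∧ uB ≠ 0 ∧
      (∀ u, n.ev (x0 + u) (y0 + n.sl x0 y0 * u) = lc * (u ^ 2 * (u - uB))) ∧
      Nx n b G (n.sl x0 y0) x0 y0 uB

/-- `c` is `n` in scaled coordinates. -/
structure Scaled (n c : Cub K) (A ρ W : K) : Prop where
  ev : ∀ X Y, n.ev (A * X) (ρ * A * Y) = W * c.ev X Y
  dx : ∀ X Y, A * n.dx (A * X) (ρ * A * Y) = W * c.dx X Y
  dy : ∀ X Y, ρ * A * n.dy (A * X) (ρ * A * Y) = W * c.dy X Y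

section lift

variable {P : Place K F} {n c : Cub K} {d : Cub F} {A ρ W : K} {b : Bool}
  {G0 : F → F → F → Prop}

def GLift (P : Place K F) (n : Cub K) (A ρ : K) (G0 : F → F → F → Prop) (μ x y : K) : Prop :=
  n.ev x y = 0 ∧ ∃ M X Y m' x' y', μ = ρ * M ∧ x = A * X ∧ y = ρ * A * Y ∧
    P.R M m' ∧ P.R X x' ∧ P.R Y y' ∧ G0 m' x' y'

theorem Scaled.dy_ne (hs : Scaled n c A ρ W) (hW : W ≠ 0) {X Y : K} (h : c.dy X Y ≠ 0) :
    n.dy (A * X) (ρ * A * Y) ≠ 0 := by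
  intro h0
  have := hs.dy X Y
  rw [h0, mul_zero] at this
  exact mul_ne_zero hW h this.symm

theorem Scaled.sl (hs : Scaled n c A ρ W) (hA : A ≠ 0) (hW : W ≠ 0) {X Y : K}
    (h : c.dy X Y ≠ 0) : n.sl (A * X) (ρ * A * Y) = ρ * c.sl X Y := by
  have h1 := hs.dy_ne hW h
  have e1 := hs.dx X Y
  have e2 := hs.dy X Y
  unfold Cub.sl
  generalize n.dx (A * X) (ρ * A * Y) = p at *
  generalize n.dy (A * X) (ρ * A * Y) = q at *
  rw [← mul_div_assoc, div_eq_div_iff h1 h]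
  apply mul_left_cancel₀ hA
  linear_combination (-c.dy X Y) * e1 + (c.dx X Y) * e2

theorem sm_lift (hρ : P.R ρ 0) (hρ0 : ρ ≠ 0) {M S : K} {m' s' : F} (hM : P.R M m')
    (hS : P.R S s') (hm : m' ≠ 0) (hs : s' ≠ 0) :
    Sm (ρ * M) (ρ * S) ∧ ∃ M', rf b (ρ * M) (ρ * S) = ρ * M' ∧ P.R M' (rf0 b m' s') := by
  have hM0 := Place.ne_zero hM hm
  have hS0 := Place.ne_zero hS hs
  have h1 : P.R (ρ * M) 0 := Place.congr (P.mul hρ hM) rfl (by ring)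
  have h2 : P.R (ρ * S) 0 := Place.congr (P.mul hρ hS) rfl (by ring)
  have h3 : P.R (1 + (ρ * S) ^ 2) 1 := Place.congr (P.add P.one (Place.pow h2 2)) rfl (by ring)
  have h4 : P.R (1 + (ρ * S) ^ 2 - 2 * (ρ * S) * (ρ * M)) 1 :=
    Place.congr (Place.sub h3 (P.mul (P.mul P.two h2) h1)) rfl (by ring)
  have h5 : P.R (1 - (ρ * S) ^ 2) 1 := Place.congr (Place.sub P.one (Place.pow h2 2)) rfl (by ring)
  refine ⟨⟨mul_ne_zero hρ0 hM0, mul_ne_zero hρ0 hS0, Place.ne_zero h5 one_ne_zero,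
    Place.ne_zero h4 one_ne_zero⟩, ?_⟩
  cases b with
  | true =>
    refine ⟨S ^ 2 / M, ?_, Place.div (Place.pow hS 2) hM hm⟩
    simp only [rf, if_true]
    field_simp
  | false =>
    refine ⟨(2 * S - M * (1 + (ρ * S) ^ 2)) / (1 + (ρ * S) ^ 2 - 2 * (ρ * S) * (ρ * M)), ?_, ?_⟩
    · simp only [rf, Bool.false_eq_true, if_false]
      ring
    · refine Place.congr (Place.div (Place.sub (P.mul P.two hS) (P.mul hM h3)) h4 one_ne_zero)
        rfl ?_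
      simp [rf0]

theorem nx_lift (hs : Scaled n c A ρ W) (hc : Place.RC P c d) (hA : A ≠ 0) (hW : W ≠ 0)
    (hρ : P.R ρ 0) (hρ0 : ρ ≠ 0) {M X Y V : K} {m' x' y' u' : F} (hM : P.R M m') (hX : P.R X x')
    (hY : P.R Y y') (hV : P.R V u') (hm : m' ≠ 0) (hN : Nx0 d b G0 m' x' y' u')
    (h0 : c.ev (X + V) (Y + M * V) = 0) :
    Nx n b (GLift P n A ρ G0) (ρ * M) (A * X) (ρ * A * Y) (A * V) := by
  obtain ⟨n1, n2, n3⟩ := hN
  have hX' := P.add hX hV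
  have hY' := P.add hY (P.mul hM hV)
  have hdy := hc.dy hX' hY'
  have hdx := hc.dx hX' hY'
  have hdy0 := Place.ne_zero hdy n1
  have hS : P.R (c.sl (X + V) (Y + M * V)) (d.sl (x' + u') (y' + m' * u')) :=
    Place.div (P.neg hdx) hdy n1
  have hs0 : d.sl (x' + u') (y' + m' * u') ≠ 0 := div_ne_zero (neg_ne_zero.2 n2) n1
  obtain ⟨s1, M', s2, s3⟩ := sm_lift (b := b) hρ hρ0 hM hS hm hs0
  have e1 : A * X + A * V = A * (X + V) := by ring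
  have e2 : ρ * A * Y + ρ * M * (A * V) = ρ * A * (Y + M * V) := by ring
  unfold Nx
  rw [e1, e2, hs.sl hA hW hdy0]
  refine ⟨hs.dy_ne hW hdy0, s1, ?_, M', X + V, Y + M * V, _, _, _, s2, rfl, rfl, s3, hX', hY', n3⟩
  rw [hs.ev, h0, mul_zero]

theorem lift [IsAlgClosed K] (hs : Scaled n c A ρ W) (hc : Place.RC P c d) (hA : A ≠ 0)
    (hW : W ≠ 0) (hρ : P.R ρ 0) (hρ0 : ρ ≠ 0) {X0 Y0 : K} {x0 y0 : F} (hX0 : P.R X0 x0)
    (hY0 : P.R Y0 y0) (h0 : c.ev X0 Y0 = 0) (hm : Model d b G0 x0 y0) :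
    Slope n b (A * X0) (ρ * A * Y0) := by
  refine ⟨GLift P n A ρ G0, ?_, ?_⟩
  · rintro μ x y ⟨hev, M, X, Y, m', x', y', rfl, rfl, rfl, hM, hX, hY, hG⟩
    refine ⟨hev, ?_⟩
    have hc0 : c.ev X Y = 0 := by
      rw [hs.ev] at hev
      exact (mul_eq_zero.1 hev).resolve_left hW
    have hd0 : d.ev x' y' = 0 := P.uniq (hc.ev hX hY) (hc0 ▸ P.zero)
    obtain ⟨hm0, u1, u2, l0, hu1, hu2, hu12, ha2, ha1, N1, N2⟩ := hm.step m' x' y' hG hd0
    have r3 := hc.a3 hM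
    have r2 := hc.a2 hM hX hY
    have r1 := P.add (hc.dx hX hY) (P.mul (hc.dy hX hY) hM)
    have l1 := Place.ne_zero r3 l0
    obtain ⟨v, v', hv⟩ : ∃ v v' : K, v + v' = -c.a2 M X Y / c.a3 M ∧
        v * v' = (c.dx X Y + c.dy X Y * M) / c.a3 M := by
      obtain ⟨v, hv⟩ := IsAlgClosed.exists_root
        (Polynomial.X ^ 2 + Polynomial.C (c.a2 M X Y / c.a3 M) * Polynomial.X
          + Polynomial.C ((c.dx X Y + c.dy X Y * M) / c.a3 M))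
        (by
          have : (Polynomial.X ^ 2 + Polynomial.C (c.a2 M X Y / c.a3 M) * Polynomial.X
            + Polynomial.C ((c.dx X Y + c.dy X Y * M) / c.a3 M) : Polynomial K).degree = 2 := by
            compute_degree!
          rw [this]; decide)
      simp only [Polynomial.IsRoot, Polynomial.eval_add, Polynomial.eval_pow, Polynomial.eval_X,
        Polynomial.eval_mul, Polynomial.eval_C] at hv
      exact ⟨v, -c.a2 M X Y / c.a3 M - v, by ring, by linear_combination -hv⟩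
    have rs : P.R (v + v') (u1 + u2) :=
      Place.congr (Place.div (P.neg r2) r3 l0) hv.1.symm (by rw [ha2]; field_simp)
    have rp : P.R (v * v') (u1 * u2) :=
      Place.congr (Place.div r1 r3 l0) hv.2.symm (by rw [ha1]; field_simp)
    have hline : ∀ U, c.ev (X + U) (Y + M * U) = c.a3 M * (U * (U - v) * (U - v')) := by
      intro U
      have e1 : c.a2 M X Y = -c.a3 M * (v + v') := by rw [hv.1]; field_simp
      have e2 : c.dx X Y + c.dy X Y * M = c.a3 M * (v * v') := by rw [hv.2]; field_simp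
      rw [Cub.ev_line, hc0, e1, e2]; ring
    have key : ∀ w w' : K, P.R w u1 → P.R w' u2 →
        (∀ U, c.ev (X + U) (Y + M * U) = c.a3 M * (U * (U - w) * (U - w'))) →
        ∃ lc u1 u2 : K, lc ≠ 0 ∧ u1 ≠ 0 ∧ u2 ≠ 0 ∧ u1 ≠ u2 ∧
        (∀ u, n.ev (A * X + u) (ρ * A * Y + ρ * M * u) = lc * (u * (u - u1) * (u - u2))) ∧
        Nx n b (GLift P n A ρ G0) (ρ * M) (A * X) (ρ * A * Y) u1 ∧
        Nx n b (GLift P n A ρ G0) (ρ * M) (A * X) (ρ * A * Y) u2 := by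
      intro w w' hw hw' hl
      refine ⟨W * c.a3 M / A ^ 3, A * w, A * w', div_ne_zero (mul_ne_zero hW l1) (pow_ne_zero _ hA),
        mul_ne_zero hA (Place.ne_zero hw hu1), mul_ne_zero hA (Place.ne_zero hw' hu2),
        fun h => Place.ne_of_ne hw hw' hu12 (mul_left_cancel₀ hA h), fun u => ?_,
        nx_lift hs hc hA hW hρ hρ0 hM hX hY hw hm0 N1 (by rw [hl]; ring),
        nx_lift hs hc hA hW hρ hρ0 hM hX hY hw' hm0 N2 (by rw [hl]; ring)⟩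
      have e1 : A * X + u = A * (X + u / A) := by field_simp
      have e2 : ρ * A * Y + ρ * M * u = ρ * A * (Y + M * (u / A)) := by field_simp
      rw [e1, e2, hs.ev, hl]
      field_simp
    rcases Place.roots rs rp with ⟨h1, h2⟩ | ⟨h1, h2⟩
    · exact key v v' h1 h2 hline
    · exact key v' v h2 h1 fun U => by rw [hline]; ring
  · obtain ⟨s1, s2, u', l0, hu, ha2, N⟩ := hm.start
    have hdy := hc.dy hX0 hY0
    have hdy0 := Place.ne_zero hdy s1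
    have hS : P.R (c.sl X0 Y0) (d.sl x0 y0) := Place.div (P.neg (hc.dx hX0 hY0)) hdy s1
    have hs0 : d.sl x0 y0 ≠ 0 := div_ne_zero (neg_ne_zero.2 s2) s1
    have r3 := hc.a3 hS
    have r2 := hc.a2 hS hX0 hY0
    have l1 := Place.ne_zero r3 l0
    have rv : P.R (-c.a2 (c.sl X0 Y0) X0 Y0 / c.a3 (c.sl X0 Y0)) u' :=
      Place.congr (Place.div (P.neg r2) r3 l0) rfl (by rw [ha2]; field_simp)
    set w := -c.a2 (c.sl X0 Y0) X0 Y0 / c.a3 (c.sl X0 Y0) with hw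
    have hl : ∀ U, c.ev (X0 + U) (Y0 + c.sl X0 Y0 * U) = c.a3 (c.sl X0 Y0) * (U ^ 2 * (U - w)) := by
      intro U
      have e1 : c.a2 (c.sl X0 Y0) X0 Y0 = -c.a3 (c.sl X0 Y0) * w := by rw [hw]; field_simp
      have e2 : c.dx X0 Y0 + c.dy X0 Y0 * c.sl X0 Y0 = 0 := by
        unfold Cub.sl; field_simp; ring
      rw [Cub.ev_line, h0, e1, e2]; ring
    rw [hs.sl hA hW hdy0]
    refine ⟨hs.dy_ne hW hdy0, (sm_lift (b := b) hρ hρ0 hS hS hs0 hs0).1,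
      W * c.a3 (c.sl X0 Y0) / A ^ 3, A * w, div_ne_zero (mul_ne_zero hW l1) (pow_ne_zero _ hA),
      mul_ne_zero hA (Place.ne_zero rv hu), fun u => ?_,
      nx_lift hs hc hA hW hρ hρ0 hS hX0 hY0 rv hs0 N (by rw [hl]; ring)⟩
    have e1 : A * X0 + u = A * (X0 + u / A) := by field_simp
    have e2 : ρ * A * Y0 + ρ * c.sl X0 Y0 * u = ρ * A * (Y0 + c.sl X0 Y0 * (u / A)) := by
      field_simp
    rw [e1, e2, hs.ev, hl]
    field_simp

end lift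

end Ivrii.NT
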