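import Mathlib
import Pool.Agent.P.MP_7a8567_an.NT.Lift

/-! The limit models. -/

set_option autoImplicit false

namespace Ivrii.NT

variable {F : Type*} [Field F] [CharZero F] (ι : ℝ →+* F)

def GM (I : ℝ → Prop) (m x y : F) : Prop := x ≠ 0 ∧ y ≠ 0 ∧ ∃ r : ℝ, I r ∧ m * x = ι r * y

theorem real_roots (s p : ℝ) (h : 0 < s ^ 2 - 4 * p) :
    ∃ a b : ℝ, a + b = s ∧ a * b = p ∧ a < b := by
  have h1 := Real.sq_sqrt h.le
  have h2 := Real.sqrt_pos.2 h
  exact ⟨(s - √(s ^ 2 - 4 * p)) / 2, (s + √(s ^ 2 - 4 * p)) / 2, by ring, by nlinarith, by linarith⟩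

omit [CharZero F] in
theorem iota_ne {a b : ℝ} (h : a ≠ b) : ι a ≠ ι b := fun e => h (ι.injective e)

omit [CharZero F] in
theorem iota_ne0 {a : ℝ} (h : a ≠ 0) : ι a ≠ 0 := by simpa using h

omit [CharZero F] in
theorem iota_ne1 {a : ℝ} (h : a ≠ 1) : ι a - 1 ≠ 0 := by
  rw [sub_ne_zero]; simpa using iota_ne ι h

/-! ### Flex -/

theorem nx1 {a c : F} (ha : a ≠ 0) (hc : c ≠ 0) (b : Bool) {m x y : F} {r v : ℝ} (hx : x ≠ 0)
    (hy : y ≠ 0) (he : c * x ^ 3 + a * y = 0) (hm : m * x = ι r * y) (hv : v ^ 2 + v + 1 = r)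
    (hv2 : 1 < v ∨ v ≤ -2) :
    Nx0 ⟨c, 0, 0, 0, 0, 0, 0, 0, a, 0⟩ b (GM ι fun r => 3 < r) m x y (x * (ι v - 1)) := by
  have hv0 : v ≠ 0 := by rcases hv2 with h | h <;> linarith
  have hr0 : 0 < r := by nlinarith
  have hr3 : r < 3 * v ^ 2 := by rcases hv2 with h | h <;> nlinarith
  have hvF : ι v ^ 2 + ι v + 1 = ι r := by rw [← hv]; simp
  have v0 := iota_ne0 ι hv0
  have r0 := iota_ne0 ι hr0.ne'
  have e1 : x + x * (ι v - 1) = x * ι v := by ring
  have e2 : y + m * (x * (ι v - 1)) = y * ι v ^ 3 := by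
    linear_combination (ι v - 1) * hm - y * (ι v - 1) * hvF
  have m0 : m ≠ 0 := by
    rintro rfl
    exact mul_ne_zero r0 hy (by linear_combination -hm)
  unfold Nx0
  rw [e1, e2]
  have hsl : Cub.sl ⟨c, 0, 0, 0, 0, 0, 0, 0, a, 0⟩ (x * ι v) (y * ι v ^ 3) * x = 3 * y * ι v ^ 2 := by
    simp only [Cub.sl, Cub.dx, Cub.dy, mul_zero, zero_mul, add_zero, zero_add]
    field_simp
    linear_combination -he
  refine ⟨by simpa [Cub.dy] using ha, by simp [Cub.dx, hc, hx, hv0], mul_ne_zero hx v0,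
    mul_ne_zero hy (pow_ne_zero _ v0), ?_⟩
  generalize Cub.sl ⟨c, 0, 0, 0, 0, 0, 0, 0, a, 0⟩ (x * ι v) (y * ι v ^ 3) = s at hsl
  cases b with
  | true =>
    refine ⟨9 * v ^ 2 / r, (lt_div_iff₀ hr0).2 (by linarith), ?_⟩
    simp only [rf0, if_true, map_div₀, map_mul, map_pow, map_ofNat]
    field_simp
    apply mul_left_cancel₀ hx
    linear_combination (s * x + 3 * y * ι v ^ 2) * ι r * hsl - 9 * y * ι v ^ 4 * hm
  | false =>
    have : 0 < v ^ 2 := by positivity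
    refine ⟨6 - r / v ^ 2, lt_sub_comm.1 ((div_lt_iff₀ this).2 (by linarith)), ?_⟩
    simp only [rf0, Bool.false_eq_true, if_false, map_div₀, map_sub, map_pow, map_ofNat]
    field_simp
    linear_combination 2 * hsl - hm

theorem model1 {a c : F} (ha : a ≠ 0) (hc : c ≠ 0) (b : Bool) {x0 y0 : F} (hx0 : x0 ≠ 0)
    (h0 : c * x0 ^ 3 + a * y0 = 0) :
    Model ⟨c, 0, 0, 0, 0, 0, 0, 0, a, 0⟩ b (GM ι fun r => 3 < r) x0 y0 := by
  constructor
  · rintro m x y ⟨hx, hy, r, hr, hm⟩ he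
    have he : c * x ^ 3 + a * y = 0 := by simpa [Cub.ev] using he
    obtain ⟨v1, v2, hs, hp, hlt⟩ := real_roots (-1) (1 - r) (by linarith)
    have h1 : v1 ^ 2 + v1 + 1 = r := by linear_combination v1 * hs - hp
    have h2 : v2 ^ 2 + v2 + 1 = r := by linear_combination v2 * hs - hp
    have g1 : v1 ≤ -2 := by nlinarith
    have g2 : 1 < v2 := by nlinarith
    have hsF : ι v1 + ι v2 = -1 := by rw [← map_add, hs]; simp
    have hpF : ι v1 * ι v2 = 1 - ι r := by rw [← map_mul, hp]; simp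
    have r0 := iota_ne0 ι (show r ≠ 0 by linarith)
    refine ⟨?_, x * (ι v1 - 1), x * (ι v2 - 1), by simpa [Cub.a3] using hc,
      mul_ne_zero hx (iota_ne1 ι (by linarith)), mul_ne_zero hx (iota_ne1 ι (by linarith)),
      fun h => iota_ne ι hlt.ne (by linear_combination mul_left_cancel₀ hx h), ?_, ?_,
      nx1 ι ha hc b hx hy he hm h1 (Or.inr g1), nx1 ι ha hc b hx hy he hm h2 (Or.inl g2)⟩
    · rintro rfl
      exact mul_ne_zero r0 hy (by linear_combination -hm)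
    · simp only [Cub.a2, Cub.a3]
      linear_combination (c * x) * hsF
    · simp only [Cub.dx, Cub.dy, Cub.a3]
      apply mul_left_cancel₀ hx
      linear_combination a * hm + ι r * he - c * x ^ 3 * hpF + c * x ^ 3 * hsF
  · have hy0 : y0 ≠ 0 := by
      rintro rfl
      exact mul_ne_zero hc (pow_ne_zero 3 hx0) (by linear_combination h0)
    have hm : Cub.sl ⟨c, 0, 0, 0, 0, 0, 0, 0, a, 0⟩ x0 y0 * x0 = ι 3 * y0 := by
      simp only [Cub.sl, Cub.dx, Cub.dy, map_ofNat, mul_zero, zero_mul, add_zero, zero_add]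
      field_simp
      linear_combination -h0
    refine ⟨by simpa [Cub.dy] using ha, by simp [Cub.dx, hc, hx0], x0 * (ι (-2) - 1),
      by simpa [Cub.a3] using hc, mul_ne_zero hx0 (iota_ne1 ι (by norm_num)), ?_,
      nx1 ι ha hc b hx0 hy0 h0 hm (by norm_num) (Or.inr le_rfl)⟩
    simp only [Cub.a2, Cub.a3, map_neg, map_ofNat]
    ring

/-! ### Cusp -/

theorem nx3 {a c : F} (ha : a ≠ 0) (hc : c ≠ 0) {m x y : F} {r v : ℝ} (hx : x ≠ 0)
    (hy : y ≠ 0) (he : c * x ^ 3 + a * y ^ 2 = 0) (hm : m * x = ι r * y)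
    (hv : v ^ 2 + (1 - r) * v + (1 - r) = 0) (hr : 0 < r) (hv2 : v < 0 ∨ 2 * r < 3 * v) :
    Nx0 ⟨c, 0, 0, 0, 0, 0, a, 0, 0, 0⟩ false (GM ι fun r => 3 / 2 < r) m x y
      (x * (ι v ^ 2 - 1)) := by
  have hv0 : v ≠ 0 := by rcases hv2 with h | h <;> linarith
  have hvF : ι v ^ 2 + (1 - ι r) * ι v + (1 - ι r) = 0 := by
    simpa using congrArg ι hv
  have v0 := iota_ne0 ι hv0
  have e1 : x + x * (ι v ^ 2 - 1) = x * ι v ^ 2 := by ring
  have e2 : y + m * (x * (ι v ^ 2 - 1)) = y * ι v ^ 3 := by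
    linear_combination (ι v ^ 2 - 1) * hm - y * (ι v - 1) * hvF
  unfold Nx0
  rw [e1, e2]
  have hsl : 2 * Cub.sl ⟨c, 0, 0, 0, 0, 0, a, 0, 0, 0⟩ (x * ι v ^ 2) (y * ι v ^ 3) * x =
      3 * y * ι v := by
    simp only [Cub.sl, Cub.dx, Cub.dy, mul_zero, zero_mul, add_zero, zero_add]
    field_simp
    linear_combination -he
  refine ⟨by simp [Cub.dy, ha, hy, hv0], by simp [Cub.dx, hc, hx, hv0],
    mul_ne_zero hx (pow_ne_zero _ v0), mul_ne_zero hy (pow_ne_zero _ v0), ?_⟩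
  generalize Cub.sl ⟨c, 0, 0, 0, 0, 0, a, 0, 0, 0⟩ (x * ι v ^ 2) (y * ι v ^ 3) = s at hsl
  refine ⟨3 - r / v, ?_, ?_⟩
  · rcases hv2 with h | h
    · have := div_neg_of_pos_of_neg hr h
      linarith
    · have h1 : 0 < v := by linarith
      have : r / v < 3 / 2 := by rw [div_lt_iff₀ h1]; linarith
      linarith
  · simp only [rf0, Bool.false_eq_true, if_false, map_div₀, map_sub, map_ofNat]
    field_simp
    linear_combination hsl - hm

theorem model3 {a c : F} (ha : a ≠ 0) (hc : c ≠ 0) {x0 y0 : F} (hx0 : x0 ≠ 0)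
    (h0 : c * x0 ^ 3 + a * y0 ^ 2 = 0) :
    Model ⟨c, 0, 0, 0, 0, 0, a, 0, 0, 0⟩ false (GM ι fun r => 3 / 2 < r) x0 y0 := by
  constructor
  · rintro m x y ⟨hx, hy, r, hr, hm⟩ he
    have he : c * x ^ 3 + a * y ^ 2 = 0 := by simpa [Cub.ev] using he
    obtain ⟨v1, v2, hs, hp, hlt⟩ := real_roots (r - 1) (1 - r) (by nlinarith)
    have h1 : v1 ^ 2 + (1 - r) * v1 + (1 - r) = 0 := by linear_combination v1 * hs - hp
    have h2 : v2 ^ 2 + (1 - r) * v2 + (1 - r) = 0 := by linear_combination v2 * hs - hp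
    have g1 : v1 < 0 := by nlinarith
    have g3 : 0 < v2 := by nlinarith
    have g2 : 2 * r < 3 * v2 := by
      by_contra hh
      have h3 : 0 ≤ (2 * r - 3 * v2) * (2 * r - 3 * v1) :=
        mul_nonneg (by linarith) (by linarith)
      nlinarith
    have hsF : ι v1 + ι v2 = ι r - 1 := by rw [← map_add, hs]; simp
    have hpF : ι v1 * ι v2 = 1 - ι r := by rw [← map_mul, hp]; simp
    have r0 := iota_ne0 ι (show r ≠ 0 by linarith)
    have n1 : v1 ^ 2 ≠ 1 := by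
      intro h
      have : v1 = -1 := by nlinarith
      rw [this] at h1; norm_num at h1
    have n2 : v2 ^ 2 ≠ 1 := by nlinarith
    have n3 : v1 ^ 2 ≠ v2 ^ 2 := by nlinarith
    refine ⟨?_, x * (ι v1 ^ 2 - 1), x * (ι v2 ^ 2 - 1), by simpa [Cub.a3] using hc,
      mul_ne_zero hx (by simpa using iota_ne1 ι n1), mul_ne_zero hx (by simpa using iota_ne1 ι n2),
      fun h => iota_ne ι n3 (by
        rw [map_pow, map_pow]; linear_combination mul_left_cancel₀ hx h), ?_, ?_,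
      nx3 ι ha hc hx hy he hm h1 (by linarith) (Or.inl g1),
      nx3 ι ha hc hx hy he hm h2 (by linarith) (Or.inr g2)⟩
    · rintro rfl
      exact mul_ne_zero r0 hy (by linear_combination -hm)
    · simp only [Cub.a2, Cub.a3]
      apply mul_left_cancel₀ (pow_ne_zero 2 hx)
      linear_combination a * (m * x + ι r * y) * hm + ι r ^ 2 * he
        + c * x ^ 3 * (ι v1 + ι v2 + ι r - 1) * hsF - 2 * c * x ^ 3 * hpF
    · simp only [Cub.dx, Cub.dy, Cub.a3]
      apply mul_left_cancel₀ hx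
      linear_combination 2 * a * y * hm + 2 * ι r * he
        - c * x ^ 3 * (ι v1 * ι v2 + 1 - ι r + 2) * hpF
        + c * x ^ 3 * (ι v1 + ι v2 + ι r - 1) * hsF
  · have hy0 : y0 ≠ 0 := by
      rintro rfl
      exact mul_ne_zero hc (pow_ne_zero 3 hx0) (by linear_combination h0)
    have hm : Cub.sl ⟨c, 0, 0, 0, 0, 0, a, 0, 0, 0⟩ x0 y0 * x0 = ι (3 / 2) * y0 := by
      simp only [Cub.sl, Cub.dx, Cub.dy, map_ofNat, map_div₀, mul_zero, zero_mul, add_zero,
        zero_add]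
      field_simp
      linear_combination -h0
    refine ⟨by simp [Cub.dy, ha, hy0], by simp [Cub.dx, hc, hx0], x0 * (ι (-1 / 2) ^ 2 - 1),
      by simpa [Cub.a3] using hc,
      mul_ne_zero hx0 (by simpa using iota_ne1 ι (show (-1 / 2 : ℝ) ^ 2 ≠ 1 by norm_num)), ?_,
      nx3 ι ha hc hx0 hy0 h0 hm (by norm_num) (by norm_num) (Or.inl (by norm_num))⟩
    generalize Cub.sl ⟨c, 0, 0, 0, 0, 0, a, 0, 0, 0⟩ x0 y0 = s at hm
    simp only [Cub.a2, Cub.a3, map_neg, map_ofNat, map_div₀, map_one] at hm ⊢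
    apply mul_left_cancel₀ (pow_ne_zero 2 hx0)
    linear_combination a * (s * x0 + 3 / 2 * y0) * hm + 9 / 4 * h0

/-! ### Flex at infinity -/

theorem nx4 {a c : F} (ha : a ≠ 0) {m x y : F} {r v : ℝ} (hx : x ≠ 0)
    (hy : y ≠ 0) (hm : m * x = ι r * y) (hv : r * v ^ 2 + v + 1 = 0) (hv1 : -2 < v) (hv2 : v < 1) :
    Nx0 ⟨0, a, 0, 0, 0, 0, 0, 0, 0, c⟩ false (GM ι fun r => r < -2) m x y (x * (ι v - 1)) := by
  have hv0 : v ≠ 0 := by rintro rfl; norm_num at hv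
  have hvF : ι r * ι v ^ 2 + ι v + 1 = 0 := by simpa using congrArg ι hv
  have v0 := iota_ne0 ι hv0
  have e1 : x + x * (ι v - 1) = x * ι v := by ring
  have e2 : y + m * (x * (ι v - 1)) = y / ι v ^ 2 := by
    field_simp
    linear_combination ι v ^ 2 * (ι v - 1) * hm + y * (ι v - 1) * hvF
  unfold Nx0
  rw [e1, e2]
  have hsl : Cub.sl ⟨0, a, 0, 0, 0, 0, 0, 0, 0, c⟩ (x * ι v) (y / ι v ^ 2) * x * ι v ^ 3 =
      -2 * y := by
    simp only [Cub.sl, Cub.dx, Cub.dy, mul_zero, zero_mul, add_zero, zero_add]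
    field_simp
  refine ⟨by simp [Cub.dy, ha, hx, hv0], by simp [Cub.dx, ha, hx, hy, hv0],
    mul_ne_zero hx v0, div_ne_zero hy (pow_ne_zero _ v0), ?_⟩
  generalize Cub.sl ⟨0, a, 0, 0, 0, 0, 0, 0, 0, c⟩ (x * ι v) (y / ι v ^ 2) = s at hsl
  refine ⟨v ^ 2 + v - 4, by nlinarith, ?_⟩
  simp only [rf0, Bool.false_eq_true, if_false, map_add, map_sub, map_pow, map_ofNat]
  field_simp
  linear_combination 2 * hsl - ι v ^ 3 * hm - y * ι v * hvF

theorem model4 {a c : F} (ha : a ≠ 0) {x0 y0 : F} (hx0 : x0 ≠ 0) (hy0 : y0 ≠ 0) :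
    Model ⟨0, a, 0, 0, 0, 0, 0, 0, 0, c⟩ false (GM ι fun r => r < -2) x0 y0 := by
  constructor
  · rintro m x y ⟨hx, hy, r, hr, hm⟩ -
    have hr0 : r ≠ 0 := by linarith
    obtain ⟨v1, v2, hs, hp, hlt⟩ := real_roots (-1 / r) (1 / r) (by
      have : 1 / r < 0 := one_div_neg.2 (by linarith)
      nlinarith [sq_nonneg (-1 / r)])
    have hs' : r * (v1 + v2) = -1 := by rw [hs]; field_simp
    have hp' : r * (v1 * v2) = 1 := by rw [hp]; field_simp
    have h1 : r * v1 ^ 2 + v1 + 1 = 0 := by linear_combination v1 * hs' - hp'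
    have h2 : r * v2 ^ 2 + v2 + 1 = 0 := by linear_combination v2 * hs' - hp'
    have g1 : -2 < v1 := by nlinarith
    have g2 : v2 < 1 := by
      by_contra hh
      have h3 : 1 ≤ v2 := not_lt.1 hh
      have h4 : 0 < (-2 - r) * v2 ^ 2 := mul_pos (by linarith) (by positivity)
      nlinarith
    have hsF : ι r * (ι v1 + ι v2) = -1 := by simpa using congrArg ι hs'
    have hpF : ι r * (ι v1 * ι v2) = 1 := by simpa using congrArg ι hp'
    have r0 := iota_ne0 ι hr0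
    have m0 : m ≠ 0 := by
      rintro rfl
      exact mul_ne_zero r0 hy (by linear_combination -hm)
    refine ⟨m0, x * (ι v1 - 1), x * (ι v2 - 1), by simp [Cub.a3, ha, m0],
      mul_ne_zero hx (iota_ne1 ι (by linarith)), mul_ne_zero hx (iota_ne1 ι (by linarith)),
      fun h => iota_ne ι hlt.ne (by linear_combination mul_left_cancel₀ hx h), ?_, ?_,
      nx4 ι ha hx hy hm h1 g1 (by linarith), nx4 ι ha hx hy hm h2 (by linarith) g2⟩
    · simp only [Cub.a2, Cub.a3]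
      linear_combination a * (ι v1 + ι v2) * hm + a * y * hsF
    · simp only [Cub.dx, Cub.dy, Cub.a3]
      linear_combination a * x * (ι v1 + ι v2 - ι v1 * ι v2) * hm + a * x * y * hsF
        - a * x * y * hpF
  · have hm : Cub.sl ⟨0, a, 0, 0, 0, 0, 0, 0, 0, c⟩ x0 y0 * x0 = ι (-2) * y0 := by
      simp only [Cub.sl, Cub.dx, Cub.dy, map_ofNat, map_neg]
      field_simp
      ring
    have m0 : Cub.sl ⟨0, a, 0, 0, 0, 0, 0, 0, 0, c⟩ x0 y0 ≠ 0 := by
      intro h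
      rw [h] at hm
      exact mul_ne_zero (iota_ne0 ι (show (-2 : ℝ) ≠ 0 by norm_num)) hy0
        (by linear_combination -hm)
    refine ⟨by simp [Cub.dy, ha, hx0], by simp [Cub.dx, ha, hx0, hy0], x0 * (ι (-1 / 2) - 1),
      by simp [Cub.a3, ha, m0], mul_ne_zero hx0 (iota_ne1 ι (by norm_num)), ?_,
      nx4 ι ha hx0 hy0 hm (by norm_num) (by norm_num) (by norm_num)⟩
    generalize Cub.sl ⟨0, a, 0, 0, 0, 0, 0, 0, 0, c⟩ x0 y0 = s at hm
    simp only [Cub.a2, Cub.a3, map_neg, map_ofNat, map_div₀, map_one] at hm ⊢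
    linear_combination a / 2 * hm

end Ivrii.NT
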