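import Mathlib
import Pool.Agent.P.MP_7a8567_an.NT.Model

/-! Good flags for the normal forms. -/

set_option autoImplicit false

namespace Ivrii.NT

variable {k K : Type*} [Field k] [IsAlgClosed k] [CharZero k] [Field K] [IsAlgClosed K]
  [Algebra k K]

theorem slope1 (iota : ℝ →+* k) (b : Bool) (n : Cub k) (h20 : n.c20 = 0) (h10 : n.c10 = 0)
    (h00 : n.c00 = 0) (h30 : n.c30 ≠ 0) (h01 : n.c01 ≠ 0) {x y : K}
    (h0 : (n.map (algebraMap k K)).ev x y = 0) (hy : y ∉ Set.range (algebraMap k K)) :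
    Slope (n.map (algebraMap k K)) b x y := by
  obtain ⟨O, f, hf, hy0⟩ := exists_place hy
  set P := ofVal O
  have : CharZero (IsLocalRing.ResidueField O) := (RingHom.charZero_iff f.injective).1 ‹_›
  have f30 : f n.c30 ≠ 0 := by simpa using h30
  have f01 : f n.c01 ≠ 0 := by simpa using h01
  simp only [Cub.ev, Cub.map, h20, h10, h00, map_zero] at h0
  have hyne : y ≠ 0 := by rintro rfl; exact hy ⟨0, map_zero _⟩
  have hx : P.R x 0 := by
    rcases P.dich x with ⟨r, hr⟩ | hr
    · have h1 := P.add (P.add (P.add (P.add (P.add (P.add (P.mul (hf n.c30) (Place.pow hr 3))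
        (P.mul (hf n.c21) (P.mul (Place.pow hr 2) hy0)))
        (P.mul (hf n.c12) (P.mul hr (Place.pow hy0 2)))) (P.mul (hf n.c03) (Place.pow hy0 3)))
        (P.mul (hf n.c11) (P.mul hr hy0))) (P.mul (hf n.c02) (Place.pow hy0 2)))
        (P.mul (hf n.c01) hy0)
      have h2 := P.uniq (Place.congr h1 (by linear_combination h0) rfl) P.zero
      have h3 : f n.c30 * r ^ 3 = 0 := by linear_combination h2
      have h4 : r = 0 := pow_eq_zero_iff (by norm_num) |>.1 ((mul_eq_zero.1 h3).resolve_left f30)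
      exact h4 ▸ hr
    · by_cases hx0 : x = 0
      · exact hx0 ▸ P.zero
      have h1 := P.add (P.add (P.add (P.add (P.add (P.add (hf n.c30)
        (P.mul (hf n.c21) (P.mul hr hy0)))
        (P.mul (hf n.c12) (P.mul (Place.pow hr 2) (Place.pow hy0 2))))
        (P.mul (hf n.c03) (P.mul (Place.pow hr 3) (Place.pow hy0 3))))
        (P.mul (hf n.c11) (P.mul (Place.pow hr 2) hy0)))
        (P.mul (hf n.c02) (P.mul (Place.pow hr 3) (Place.pow hy0 2))))
        (P.mul (hf n.c01) (P.mul (Place.pow hr 3) hy0))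
      have h2 := P.uniq (Place.congr h1 (by
        apply mul_left_cancel₀ (pow_ne_zero 3 hx0)
        field_simp
        linear_combination h0) rfl) P.zero
      exact absurd (by linear_combination h2) f30
  have hG := P.add (P.add (P.add (P.add (P.add (hf n.c01) (P.mul (hf n.c11) hx))
    (P.mul (hf n.c02) hy0)) (P.mul (hf n.c21) (Place.pow hx 2)))
    (P.mul (hf n.c12) (P.mul hx hy0))) (P.mul (hf n.c03) (Place.pow hy0 2))
  have hG' := Place.congr hG rfl (show _ = f n.c01 by ring)
  have hG0 := Place.ne_zero hG' f01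
  have hxne : x ≠ 0 := by
    rintro rfl
    exact mul_ne_zero hyne hG0 (by linear_combination h0)
  have hY : P.R (y / x ^ 3) (-f n.c30 / f n.c01) := by
    refine Place.congr (Place.div (P.neg (hf n.c30)) hG' f01) ?_ rfl
    rw [div_eq_div_iff hG0 (pow_ne_zero 3 hxne)]
    linear_combination -h0
  have hsc : Scaled (n.map (algebraMap k K)) ⟨algebraMap k K n.c30, algebraMap k K n.c21 * x ^ 2,
      algebraMap k K n.c12 * x ^ 4, algebraMap k K n.c03 * x ^ 6, 0, algebraMap k K n.c11 * x,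
      algebraMap k K n.c02 * x ^ 3, 0, algebraMap k K n.c01, 0⟩ x (x ^ 2) (x ^ 3) := by
    constructor <;> intro X Y <;>
      simp only [Cub.ev, Cub.dx, Cub.dy, Cub.map, h20, h10, h00, map_zero] <;> ring
  have hrc : Place.RC P ⟨algebraMap k K n.c30, algebraMap k K n.c21 * x ^ 2,
      algebraMap k K n.c12 * x ^ 4, algebraMap k K n.c03 * x ^ 6, 0, algebraMap k K n.c11 * x,
      algebraMap k K n.c02 * x ^ 3, 0, algebraMap k K n.c01, 0⟩
      ⟨f n.c30, 0, 0, 0, 0, 0, 0, 0, f n.c01, 0⟩ :=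
    ⟨hf _, Place.congr (P.mul (hf _) (Place.pow hx 2)) rfl (by ring),
      Place.congr (P.mul (hf _) (Place.pow hx 4)) rfl (by ring),
      Place.congr (P.mul (hf _) (Place.pow hx 6)) rfl (by ring), P.zero,
      Place.congr (P.mul (hf _) hx) rfl (by ring),
      Place.congr (P.mul (hf _) (Place.pow hx 3)) rfl (by ring), P.zero, hf _, P.zero⟩
  have := lift hsc hrc hxne (pow_ne_zero 3 hxne)
    (Place.congr (Place.pow hx 2) rfl (by ring)) (pow_ne_zero 2 hxne) P.one hY
    (by simp only [Cub.ev]; field_simp; linear_combination h0)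
    (model1 (f.comp iota) f01 f30 b one_ne_zero (by field_simp; ring))
  convert this using 1
  · ring
  · field_simp

theorem slope3 (iota : ℝ →+* k) (n : Cub k) (h20 : n.c20 = 0) (h11 : n.c11 = 0) (h10 : n.c10 = 0)
    (h01 : n.c01 = 0) (h00 : n.c00 = 0) (h30 : n.c30 ≠ 0) (h02 : n.c02 ≠ 0) {x y : K}
    (h0 : (n.map (algebraMap k K)).ev x y = 0) (hy : y ∉ Set.range (algebraMap k K)) :
    Slope (n.map (algebraMap k K)) false x y := by
  simp only [Cub.ev, Cub.map, h20, h10, h00, h11, h01, map_zero] at h0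
  have hyne : y ≠ 0 := by rintro rfl; exact hy ⟨0, map_zero _⟩
  have a02 : algebraMap k K n.c02 ≠ 0 := by simpa using h02
  have hxne : x ≠ 0 := by
    rintro rfl
    have h1 : algebraMap k K n.c03 * y + algebraMap k K n.c02 = 0 := by
      apply mul_left_cancel₀ (pow_ne_zero 2 hyne)
      linear_combination h0
    have h3 : algebraMap k K n.c03 ≠ 0 := by
      intro h
      rw [h] at h1
      exact a02 (by linear_combination h1)
    refine hy ⟨-n.c02 / n.c03, ?_⟩
    rw [map_div₀, map_neg, div_eq_iff h3]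
    linear_combination -h1
  obtain ⟨s, rfl⟩ : ∃ s, y = s * x := ⟨y / x, by field_simp⟩
  have hsne : s ≠ 0 := left_ne_zero_of_mul hyne
  have h1 : algebraMap k K n.c02 * s ^ 2 + x * (algebraMap k K n.c30 + algebraMap k K n.c21 * s
      + algebraMap k K n.c12 * s ^ 2 + algebraMap k K n.c03 * s ^ 3) = 0 := by
    apply mul_left_cancel₀ (pow_ne_zero 2 hxne)
    linear_combination h0
  have hg : algebraMap k K n.c30 + algebraMap k K n.c21 * s
      + algebraMap k K n.c12 * s ^ 2 + algebraMap k K n.c03 * s ^ 3 ≠ 0 := by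
    intro h
    rw [h] at h1
    exact mul_ne_zero a02 (pow_ne_zero 2 hsne) (by linear_combination h1)
  have hs : s ∉ Set.range (algebraMap k K) := by
    rintro ⟨a, rfl⟩
    refine hy ⟨a * (-(n.c02 * a ^ 2) / (n.c30 + n.c21 * a + n.c12 * a ^ 2 + n.c03 * a ^ 3)), ?_⟩
    simp only [map_mul, map_div₀, map_neg, map_add, map_pow]
    congr 1
    rw [div_eq_iff hg]
    linear_combination -h1
  obtain ⟨O, f, hf, hs0⟩ := exists_place hs
  set P := ofVal O
  have : CharZero (IsLocalRing.ResidueField O) := (RingHom.charZero_iff f.injective).1 ‹_›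
  have f30 : f n.c30 ≠ 0 := by simpa using h30
  have f02 : f n.c02 ≠ 0 := by simpa using h02
  have hG := P.add (P.add (P.add (hf n.c30) (P.mul (hf n.c21) hs0))
    (P.mul (hf n.c12) (Place.pow hs0 2))) (P.mul (hf n.c03) (Place.pow hs0 3))
  have hG' := Place.congr hG rfl (show _ = f n.c30 by ring)
  have hX : P.R (x / s ^ 2) (-f n.c02 / f n.c30) := by
    refine Place.congr (Place.div (P.neg (hf n.c02)) hG' f30) ?_ rfl
    rw [div_eq_div_iff hg (pow_ne_zero 2 hsne)]
    linear_combination -h1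
  have hsc : Scaled (n.map (algebraMap k K)) ⟨algebraMap k K n.c30, algebraMap k K n.c21 * s,
      algebraMap k K n.c12 * s ^ 2, algebraMap k K n.c03 * s ^ 3, 0, 0,
      algebraMap k K n.c02, 0, 0, 0⟩ (s ^ 2) s (s ^ 6) := by
    constructor <;> intro X Y <;>
      simp only [Cub.ev, Cub.dx, Cub.dy, Cub.map, h20, h10, h00, h11, h01, map_zero] <;> ring
  have hrc : Place.RC P ⟨algebraMap k K n.c30, algebraMap k K n.c21 * s,
      algebraMap k K n.c12 * s ^ 2, algebraMap k K n.c03 * s ^ 3, 0, 0,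
      algebraMap k K n.c02, 0, 0, 0⟩ ⟨f n.c30, 0, 0, 0, 0, 0, f n.c02, 0, 0, 0⟩ :=
    ⟨hf _, Place.congr (P.mul (hf _) hs0) rfl (by ring),
      Place.congr (P.mul (hf _) (Place.pow hs0 2)) rfl (by ring),
      Place.congr (P.mul (hf _) (Place.pow hs0 3)) rfl (by ring), P.zero, P.zero, hf _,
      P.zero, P.zero, P.zero⟩
  have := lift hsc hrc (pow_ne_zero 2 hsne) (pow_ne_zero 6 hsne) hs0 hsne hX hX
    (by simp only [Cub.ev]; field_simp; linear_combination x ^ 2 * h1)
    (model3 (f.comp iota) f02 f30 (div_ne_zero (neg_ne_zero.2 f02) f30) (by field_simp; ring))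
  convert this using 1
  · field_simp
  · field_simp

theorem slope4 (iota : ℝ →+* k) (n : Cub k) (h30 : n.c30 = 0) (h20 : n.c20 = 0) (h10 : n.c10 = 0)
    (h00 : n.c00 ≠ 0) (h21 : n.c21 ≠ 0) {x y : K}
    (h0 : (n.map (algebraMap k K)).ev x y = 0) (hy : y ∉ Set.range (algebraMap k K)) :
    Slope (n.map (algebraMap k K)) false x y := by
  obtain ⟨O, f, hf, hy0⟩ := exists_place hy
  set P := ofVal O
  have : CharZero (IsLocalRing.ResidueField O) := (RingHom.charZero_iff f.injective).1 ‹_›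
  have f00 : f n.c00 ≠ 0 := by simpa using h00
  have f21 : f n.c21 ≠ 0 := by simpa using h21
  simp only [Cub.ev, Cub.map, h20, h10, h30, map_zero, zero_mul, zero_add, add_zero] at h0
  have hnf : ∀ r, ¬ P.R x r := by
    intro r hr
    have h1 := P.add (P.add (P.add (P.add (P.add (P.add
      (P.mul (hf n.c21) (P.mul (Place.pow hr 2) hy0))
      (P.mul (hf n.c12) (P.mul hr (Place.pow hy0 2)))) (P.mul (hf n.c03) (Place.pow hy0 3)))
      (P.mul (hf n.c11) (P.mul hr hy0))) (P.mul (hf n.c02) (Place.pow hy0 2)))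
      (P.mul (hf n.c01) hy0)) (hf n.c00)
    have h2 := P.uniq (Place.congr h1 (by linear_combination h0) rfl) P.zero
    exact f00 (by linear_combination h2)
  have hx : P.R x⁻¹ 0 := (P.dich x).resolve_left fun ⟨r, hr⟩ => hnf r hr
  have hxne : x ≠ 0 := by rintro rfl; exact hnf 0 P.zero
  obtain ⟨s, rfl⟩ : ∃ s, x = s⁻¹ := ⟨x⁻¹, by simp⟩
  rw [inv_inv] at hx
  have hsne : s ≠ 0 := by simpa using hxne
  have hG := P.add (P.add (P.add (P.add (P.add (hf n.c21) (P.mul (hf n.c11) hx))
    (P.mul (hf n.c01) (Place.pow hx 2))) (P.mul (hf n.c02) (P.mul hy0 (Place.pow hx 2))))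
    (P.mul (hf n.c12) (P.mul hy0 hx))) (P.mul (hf n.c03) (P.mul (Place.pow hy0 2) (Place.pow hx 2)))
  have hG' := Place.congr hG rfl (show _ = f n.c21 by ring)
  have hG0 := Place.ne_zero hG' f21
  have hY : P.R (y / s ^ 2) (-f n.c00 / f n.c21) := by
    refine Place.congr (Place.div (P.neg (hf n.c00)) hG' f21) ?_ rfl
    rw [div_eq_div_iff hG0 (pow_ne_zero 2 hsne)]
    field_simp at h0
    linear_combination -h0
  have hsc : Scaled (n.map (algebraMap k K)) ⟨0, algebraMap k K n.c21,
      algebraMap k K n.c12 * s ^ 3, algebraMap k K n.c03 * s ^ 6, 0, algebraMap k K n.c11 * s,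
      algebraMap k K n.c02 * s ^ 4, 0, algebraMap k K n.c01 * s ^ 2, algebraMap k K n.c00⟩
      s⁻¹ (s ^ 3) 1 := by
    constructor <;> intro X Y <;>
      simp only [Cub.ev, Cub.dx, Cub.dy, Cub.map, h20, h10, h30, map_zero] <;> field_simp <;> ring
  have hrc : Place.RC P ⟨0, algebraMap k K n.c21,
      algebraMap k K n.c12 * s ^ 3, algebraMap k K n.c03 * s ^ 6, 0, algebraMap k K n.c11 * s,
      algebraMap k K n.c02 * s ^ 4, 0, algebraMap k K n.c01 * s ^ 2, algebraMap k K n.c00⟩
      ⟨0, f n.c21, 0, 0, 0, 0, 0, 0, 0, f n.c00⟩ :=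
    ⟨P.zero, hf _, Place.congr (P.mul (hf _) (Place.pow hx 3)) rfl (by ring),
      Place.congr (P.mul (hf _) (Place.pow hx 6)) rfl (by ring), P.zero,
      Place.congr (P.mul (hf _) hx) rfl (by ring),
      Place.congr (P.mul (hf _) (Place.pow hx 4)) rfl (by ring), P.zero,
      Place.congr (P.mul (hf _) (Place.pow hx 2)) rfl (by ring), hf _⟩
  have := lift hsc hrc hxne one_ne_zero
    (Place.congr (Place.pow hx 3) rfl (by ring)) (pow_ne_zero 3 hsne) P.one hY
    (by
      simp only [Cub.ev, zero_mul, zero_add, add_zero]; field_simp at h0 ⊢; linear_combination h0)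
    (model4 (c := f n.c00) (f.comp iota) f21 one_ne_zero (div_ne_zero (neg_ne_zero.2 f00) f21))
  convert this using 1
  · ring
  · field_simp

end Ivrii.NT
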