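import Mathlib
import Pool.Agent.P.MP_7a8567_an.NT.Slope
import Pool.Agent.P.MP_7a8567_an.NT.Exist

/-! From slopes to directions. -/

set_option autoImplicit false

namespace Ivrii.NT

section
variable {K : Type*} [Field K]

def Nxt (c : Cub K) (Good : K → K → K → Prop) (t z w u : K) : Prop :=
  c.dx (z + t * u) (w + u / t) ≠ 0 ∧ c.dy (z + t * u) (w + u / t) ≠ 0 ∧
    Good (-c.dy (z + t * u) (w + u / t) / c.dx (z + t * u) (w + u / t) / t) (z + t * u) (w + u / t)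

def Fin0 (c : Cub K) (s z0 w0 : K) : Prop :=
  ∃ Good : K → K → K → Prop,
    (∀ t z w, Good t z w → t ≠ 0 ∧ c.ev z w = 0 ∧
      ∃ lc u1 u2 : K, lc ≠ 0 ∧ u1 ≠ 0 ∧ u2 ≠ 0 ∧ u1 ≠ u2 ∧
        (∀ u, c.ev (z + t * u) (w + u / t) = lc * (u * (u - u1) * (u - u2))) ∧
        Nxt c Good t z w u1 ∧ Nxt c Good t z w u2) ∧
    ∃ lc uB : K, lc ≠ 0 ∧ uB ≠ 0 ∧
      (∀ u, c.ev (z0 + s * u) (w0 + u / s) = lc * (u ^ 2 * (u - uB))) ∧ Nxt c Good s z0 w0 uB

def Dir (a1 a2 b1 b2 t A μ : K) : Prop :=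
  t ≠ 0 ∧ A ≠ 0 ∧ t = A * (a1 + μ * b1) ∧ t⁻¹ = A * (a2 + μ * b2)

structure Law (a1 a2 b1 b2 : K) (b : Bool) : Prop where
  step : ∀ t A μ p q : K, b1 * p + b2 * q ≠ 0 → Sm μ (-(a1 * p + a2 * q) / (b1 * p + b2 * q)) →
    Dir a1 a2 b1 b2 t A μ → p ≠ 0 ∧ q ≠ 0 ∧
      ∃ A', Dir a1 a2 b1 b2 (-q / p / t) A' (rf b μ (-(a1 * p + a2 * q) / (b1 * p + b2 * q)))
  start : ∀ s μ p q : K, b1 * p + b2 * q ≠ 0 → Sm μ (-(a1 * p + a2 * q) / (b1 * p + b2 * q)) →
    s ≠ 0 → s ^ 2 * p = -q → ∃ A, Dir a1 a2 b1 b2 s A (-(a1 * p + a2 * q) / (b1 * p + b2 * q))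

theorem lawA {s0 : K} (h0 : s0 ≠ 0) : Law s0 s0⁻¹ s0 (-s0⁻¹) false := by
  have key : ∀ p q m : K, s0 * p + -s0⁻¹ * q ≠ 0 →
      m = -(s0 * p + s0⁻¹ * q) / (s0 * p + -s0⁻¹ * q) → 1 - m ^ 2 ≠ 0 →
      1 - m ≠ 0 ∧ 1 + m ≠ 0 ∧ p ≠ 0 ∧ q ≠ 0 ∧ s0 ^ 2 * p * (1 + m) + q * (1 - m) = 0 := by
    intro p q m h1 h2 h3
    have m1 : 1 - m ≠ 0 := fun h => h3 (by linear_combination (1 + m) * h)
    have m2 : 1 + m ≠ 0 := fun h => h3 (by linear_combination (1 - m) * h)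
    rw [eq_div_iff h1] at h2
    have e : s0 ^ 2 * p * (1 + m) + q * (1 - m) = 0 := by
      field_simp at h2
      linear_combination h2
    refine ⟨m1, m2, fun h => ?_, fun h => ?_, e⟩
    · have : q = 0 := by simpa [h, m1] using e
      simp [h, this] at h1
    · have : p = 0 := by simpa [h, m2, h0] using e
      simp [h, this] at h1
  constructor
  · rintro t A μ p q h1 ⟨-, -, s3, s4⟩ ⟨d1, d2, d3, d4⟩
    obtain ⟨m1, m2, hp, hq, e⟩ := key p q _ h1 rfl s3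
    generalize -(s0 * p + s0⁻¹ * q) / (s0 * p + -s0⁻¹ * q) = m at *
    have e' : -q / p = s0 ^ 2 * (1 + m) / (1 - m) := by
      field_simp
      linear_combination -e
    simp only [rf, Bool.false_eq_true, if_false]
    obtain ⟨N, hN⟩ : ∃ N, N = 1 + m ^ 2 - 2 * m * μ := ⟨_, rfl⟩
    rw [← hN] at s4 ⊢
    refine ⟨hp, hq, A * N / ((1 - m) * (1 + m)),
      div_ne_zero (div_ne_zero (neg_ne_zero.2 hq) hp) d1,
      div_ne_zero (mul_ne_zero d2 s4) (mul_ne_zero m1 m2), ?_, ?_⟩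
    · rw [e', div_eq_mul_inv _ t, d4]
      field_simp
      rw [hN]
      ring
    · rw [e', inv_div, d3]
      field_simp
      rw [hN]
      ring
  · rintro s μ p q h1 ⟨-, -, s3, -⟩ hs hsq
    obtain ⟨m1, m2, hp, hq, e⟩ := key p q _ h1 rfl s3
    generalize -(s0 * p + s0⁻¹ * q) / (s0 * p + -s0⁻¹ * q) = m at *
    refine ⟨s / (s0 * (1 + m)), hs, div_ne_zero hs (mul_ne_zero h0 m2), ?_, ?_⟩
    · field_simp
    · field_simp
      apply mul_left_cancel₀ hp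
      linear_combination e - (1 - m) * hsq

theorem lawB1 : Law (1 : K) 0 0 1 true := by
  constructor
  · rintro t A μ p q h1 ⟨s1, s2, -, -⟩ ⟨d1, d2, d3, d4⟩
    simp only [one_mul, zero_mul, mul_zero, add_zero, zero_add, mul_one] at *
    have hp : p ≠ 0 := by rintro rfl; simp at s2
    refine ⟨hp, h1, -q / p / t, div_ne_zero (div_ne_zero (neg_ne_zero.2 h1) hp) d1,
      div_ne_zero (div_ne_zero (neg_ne_zero.2 h1) hp) d1, by ring, ?_⟩
    rw [inv_div, div_eq_mul_inv _ t, d4, d3]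
    simp only [rf, if_true]
    field_simp
    ring
  · rintro s μ p q h1 ⟨-, s2, -, -⟩ hs hsq
    simp only [one_mul, zero_mul, add_zero, zero_add] at *
    refine ⟨s, hs, hs, by ring, ?_⟩
    field_simp
    linear_combination hsq

theorem lawB2 : Law (0 : K) 1 1 0 true := by
  constructor
  · rintro t A μ p q h1 ⟨s1, s2, -, -⟩ ⟨d1, d2, d3, d4⟩
    simp only [one_mul, zero_mul, mul_zero, add_zero, zero_add, mul_one] at *
    have hq : q ≠ 0 := by rintro rfl; simp at s2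
    refine ⟨h1, hq, (-q / p / t)⁻¹, div_ne_zero (div_ne_zero (neg_ne_zero.2 hq) h1) d1,
      inv_ne_zero (div_ne_zero (div_ne_zero (neg_ne_zero.2 hq) h1) d1), ?_, by ring⟩
    rw [inv_div, div_eq_mul_inv _ t, d4, d3]
    simp only [rf, if_true]
    field_simp
    ring
  · rintro s μ p q h1 ⟨-, s2, -, -⟩ hs hsq
    simp only [one_mul, zero_mul, add_zero, zero_add] at *
    refine ⟨s⁻¹, hs, inv_ne_zero hs, ?_, by ring⟩
    field_simp
    linear_combination hsq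

variable [CharZero K]

theorem fin0_of_slope {c : Cub K} {a1 a2 b1 b2 o1 o2 x0 y0 s : K} {b : Bool}
    (hL : Law a1 a2 b1 b2 b) (h : Slope (c.pull (a1, a2, 0) (b1, b2, 0) (o1, o2, 1)) b x0 y0)
    (hs : s ≠ 0) (hsq : s ^ 2 * c.dx (o1 + a1 * x0 + b1 * y0) (o2 + a2 * x0 + b2 * y0) =
      -c.dy (o1 + a1 * x0 + b1 * y0) (o2 + a2 * x0 + b2 * y0)) :
    Fin0 c s (o1 + a1 * x0 + b1 * y0) (o2 + a2 * x0 + b2 * y0) := by
  obtain ⟨G, hG, s1, s2, lc, uB, l0, u0, hl, hN⟩ := h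
  let Good : K → K → K → Prop := fun t z w => ∃ A μ x y, Dir a1 a2 b1 b2 t A μ ∧
    z = o1 + a1 * x + b1 * y ∧ w = o2 + a2 * x + b2 * y ∧ G μ x y
  have pt : ∀ {t A μ : K}, Dir a1 a2 b1 b2 t A μ → ∀ x y u : K,
      o1 + a1 * x + b1 * y + t * u = o1 + a1 * (x + A * u) + b1 * (y + μ * (A * u)) ∧
      o2 + a2 * x + b2 * y + u / t = o2 + a2 * (x + A * u) + b2 * (y + μ * (A * u)) := by
    rintro t A μ ⟨-, -, d3, d4⟩ x y u
    exact ⟨by linear_combination u * d3, by rw [div_eq_mul_inv, d4]; ring⟩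
  have nx : ∀ {t A μ : K}, Dir a1 a2 b1 b2 t A μ → ∀ x y u : K,
      Nx (c.pull (a1, a2, 0) (b1, b2, 0) (o1, o2, 1)) b G μ x y u →
      Nxt c Good t (o1 + a1 * x + b1 * y) (o2 + a2 * x + b2 * y) (u / A) := by
    intro t A μ hD x y u ⟨n1, n2, n3⟩
    obtain ⟨e1, e2⟩ := pt hD x y (u / A)
    have e3 : A * (u / A) = u := by have := hD.2.1; field_simp
    rw [e3] at e1 e2
    unfold Nxt
    rw [e1, e2]
    unfold Cub.sl at n2 n3
    rw [dx_pull, dy_pull] at n2 n3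
    rw [dy_pull] at n1
    obtain ⟨g1, g2, A', g3⟩ := hL.step t A μ _ _ n1 n2 hD
    exact ⟨g1, g2, A', _, _, _, g3, rfl, rfl, n3⟩
  refine ⟨Good, ?_, ?_⟩
  · rintro t z w ⟨A, μ, x, y, hD, rfl, rfl, hg⟩
    obtain ⟨g0, lc, u1, u2, l0, h1, h2, h12, hl, N1, N2⟩ := hG μ x y hg
    have hA := hD.2.1
    rw [ev_pull] at g0
    refine ⟨hD.1, g0, lc * A ^ 3, u1 / A, u2 / A, mul_ne_zero l0 (pow_ne_zero _ hA),
      div_ne_zero h1 hA, div_ne_zero h2 hA, fun h => h12 ((div_left_inj' hA).1 h), fun u => ?_,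
      nx hD x y u1 N1, nx hD x y u2 N2⟩
    rw [(pt hD x y u).1, (pt hD x y u).2, ← ev_pull, hl]
    field_simp
  · have s1' := s1
    have s2' := s2
    unfold Cub.sl at s2'
    rw [dx_pull, dy_pull] at s2'
    rw [dy_pull] at s1'
    obtain ⟨A, hD⟩ := hL.start s _ _ _ s1' s2' hs hsq
    rw [← dx_pull, ← dy_pull] at hD
    have hA := hD.2.1
    refine ⟨lc * A ^ 3, uB / A, mul_ne_zero l0 (pow_ne_zero _ hA), div_ne_zero u0 hA, fun u => ?_,
      nx hD x0 y0 uB hN⟩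
    rw [(pt hD x0 y0 u).1, (pt hD x0 y0 u).2, ← ev_pull]
    refine (hl _).trans ?_
    field_simp

end

variable {k K : Type*} [Field k] [IsAlgClosed k] [CharZero k] [Field K] [Algebra k K]

theorem mem_of_noLine {n : Cub k} (hl : NoLine n) {x : K} {y : k}
    (h : (n.map (algebraMap k K)).ev x (algebraMap k K y) = 0) :
    x ∈ Set.range (algebraMap k K) := by
  open Polynomial in
  refine mem_range_of_algebraic ⟨C n.c30 * X ^ 3 + C (n.c21 * y + n.c20) * X ^ 2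
    + C (n.c12 * y ^ 2 + n.c11 * y + n.c10) * X + C (n.ev 0 y), fun h0 => ?_, ?_⟩
  · have h3 := congrArg (coeff · 3) h0
    have h2 := congrArg (coeff · 2) h0
    have h1 := congrArg (coeff · 1) h0
    have h4 := congrArg (coeff · 0) h0
    simp only [coeff_add, coeff_C_mul, coeff_X_pow, coeff_X, coeff_C, coeff_zero] at h1 h2 h3 h4
    norm_num at h1 h2 h3 h4
    have := hl (1, 0, 0) (0, y, 1) (by simp [Cub.T, h3])
      (by simp only [Cub.T]; linear_combination 2 * h2)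
      (by simp only [Cub.T]; linear_combination 2 * h1)
      (by simp only [Cub.T, Cub.ev] at h4 ⊢; linear_combination 6 * h4)
    simp [Par] at this
  · simp only [Cub.ev, Cub.map] at h ⊢
    simp only [map_add, map_mul, map_pow, aeval_C, aeval_X, map_zero]
    linear_combination h

omit [IsAlgClosed k] in
theorem map_pull [CharZero K] (c : Cub k) (a1 a2 b1 b2 o1 o2 : k) :
    (c.pull (a1, a2, 0) (b1, b2, 0) (o1, o2, 1)).map (algebraMap k K) =
      (c.map (algebraMap k K)).pull (algebraMap k K a1, algebraMap k K a2, 0)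
        (algebraMap k K b1, algebraMap k K b2, 0) (algebraMap k K o1, algebraMap k K o2, 1) := by
  have hT : ∀ a b d : V3 k, algebraMap k K (c.T a b d) = (c.map (algebraMap k K)).T
      (algebraMap k K a.1, algebraMap k K a.2.1, algebraMap k K a.2.2)
      (algebraMap k K b.1, algebraMap k K b.2.1, algebraMap k K b.2.2)
      (algebraMap k K d.1, algebraMap k K d.2.1, algebraMap k K d.2.2) := by
    intro a b d
    simp only [Cub.T, Cub.map, map_add, map_mul, map_ofNat]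
  rw [Cub.pull, Cub.pull, Cub.map]
  simp only [map_div₀, map_ofNat, hT, map_zero, map_one]

theorem fin0_of [IsAlgClosed K] {c : Cub k} (hl : NoLine c) {a1 a2 b1 b2 o1 o2 : k} {b : Bool}
    (hd : a1 * b2 - a2 * b1 ≠ 0)
    (hL : Law (algebraMap k K a1) (algebraMap k K a2) (algebraMap k K b1) (algebraMap k K b2) b)
    (hS : ∀ x y : K, ((c.pull (a1, a2, 0) (b1, b2, 0) (o1, o2, 1)).map (algebraMap k K)).ev x y = 0 →
      y ∉ Set.range (algebraMap k K) →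
      Slope ((c.pull (a1, a2, 0) (b1, b2, 0) (o1, o2, 1)).map (algebraMap k K)) b x y)
    {z0 w0 s : K} (h0 : (c.map (algebraMap k K)).ev z0 w0 = 0)
    (hz0 : z0 ∉ Set.range (algebraMap k K)) (hs : s ≠ 0)
    (hsq : s ^ 2 * (c.map (algebraMap k K)).dx z0 w0 = -(c.map (algebraMap k K)).dy z0 w0) :
    Fin0 (c.map (algebraMap k K)) s z0 w0 := by
  have : CharZero K := (RingHom.charZero_iff (algebraMap k K).injective).1 ‹_›
  have hd' : algebraMap k K a1 * algebraMap k K b2 - algebraMap k K a2 * algebraMap k K b1 ≠ 0 := by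
    rw [← map_mul, ← map_mul, ← map_sub]; exact (map_ne_zero _).2 hd
  obtain ⟨x, y, rfl, rfl⟩ : ∃ x y : K,
      z0 = algebraMap k K o1 + algebraMap k K a1 * x + algebraMap k K b1 * y ∧
      w0 = algebraMap k K o2 + algebraMap k K a2 * x + algebraMap k K b2 * y := by
    generalize algebraMap k K a1 = a1 at *
    generalize algebraMap k K a2 = a2 at *
    generalize algebraMap k K b1 = b1 at *
    generalize algebraMap k K b2 = b2 at *
    obtain ⟨D, hD⟩ : ∃ D, D = a1 * b2 - a2 * b1 := ⟨_, rfl⟩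
    rw [← hD] at hd'
    refine ⟨((z0 - algebraMap k K o1) * b2 - (w0 - algebraMap k K o2) * b1) / D,
      (a1 * (w0 - algebraMap k K o2) - a2 * (z0 - algebraMap k K o1)) / D,
      ?_, ?_⟩ <;> field_simp <;> rw [hD] <;> ring
  have h1 : ((c.pull (a1, a2, 0) (b1, b2, 0) (o1, o2, 1)).map (algebraMap k K)).ev x y = 0 := by
    rw [map_pull, ev_pull, h0]
  have hy : y ∉ Set.range (algebraMap k K) := by
    rintro ⟨y, rfl⟩
    obtain ⟨x, rfl⟩ := mem_of_noLine (hl.pull (by simpa [det3] using hd)) h1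
    exact hz0 ⟨o1 + a1 * x + b1 * y, by simp⟩
  have h2 := hS x y h1 hy
  rw [map_pull] at h2
  exact fin0_of_slope hL h2 hs hsq

theorem fin0 [IsAlgClosed K] (iota : ℝ →+* k) {τ : k →+* k} (hτ : ∀ a, τ (τ a) = a) {κ : k}
    {c : Cub k} (hr : RealCub τ κ c) (hl : NoLine c)
    {z0 w0 s : K} (h0 : (c.map (algebraMap k K)).ev z0 w0 = 0)
    (hz0 : z0 ∉ Set.range (algebraMap k K)) (hs : s ≠ 0)
    (hsq : s ^ 2 * (c.map (algebraMap k K)).dx z0 w0 = -(c.map (algebraMap k K)).dy z0 w0) :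
    Fin0 (c.map (algebraMap k K)) s z0 w0 := by
  obtain ⟨o1, o2, ⟨s0, hs0, h⟩ | h | h⟩ := exists_nrm hτ hr hl
  · have hd : s0 * -s0⁻¹ - s0⁻¹ * s0 ≠ 0 := by
      have : s0 * -s0⁻¹ - s0⁻¹ * s0 = -2 := by field_simp; ring
      rw [this]; norm_num
    have hL : Law (algebraMap k K s0) (algebraMap k K s0⁻¹) (algebraMap k K s0)
        (algebraMap k K (-s0⁻¹)) false := by
      rw [map_neg, map_inv₀]
      exact lawA (by simpa using hs0)
    refine fin0_of (o1 := o1) (o2 := o2) hl hd hL (fun x y h1 h2 => ?_) h0 hz0 hs hsq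
    rcases h with ⟨g1, g2, g3, g4, g5⟩ | ⟨g1, g2, g3, g4, g5, g6, g7⟩ | ⟨g1, g2, g3, g4, g5⟩
    · exact slope1 iota _ _ g1 g2 g3 g4 g5 h1 h2
    · exact slope3 iota _ g1 g2 g3 g4 g5 g6 g7 h1 h2
    · exact slope4 iota _ g1 g2 g3 g4 g5 h1 h2
  · obtain ⟨g1, g2, g3, g4, g5⟩ := h
    refine fin0_of (o1 := o1) (o2 := o2) (a1 := 1) (a2 := 0) (b1 := 0) (b2 := 1) (b := true) hl
      (by simp) (by simpa using lawB1) (fun x y h1 h2 => ?_) h0 hz0 hs hsq
    exact slope1 iota _ _ g1 g2 g3 g4 g5 h1 h2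
  · obtain ⟨g1, g2, g3, g4, g5⟩ := h
    refine fin0_of (o1 := o1) (o2 := o2) (a1 := 0) (a2 := 1) (b1 := 1) (b2 := 0) (b := true) hl
      (by simp) (by simpa using lawB2) (fun x y h1 h2 => ?_) h0 hz0 hs hsq
    exact slope1 iota _ _ g1 g2 g3 g4 g5 h1 h2

end Ivrii.NT
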