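import Mathlib
import Pool.Agent.P.MP_7a8567_an.NT.Exist

/-! Cubics as polynomials in two variables. -/

set_option autoImplicit false
open MvPolynomial

namespace Ivrii.NT

variable {k : Type*} [Field k]

noncomputable def toPoly (c : Cub k) : MvPolynomial (Fin 2) k :=
  C c.c30 * X 0 ^ 3 + C c.c21 * (X 0 ^ 2 * X 1) + C c.c12 * (X 0 * X 1 ^ 2) + C c.c03 * X 1 ^ 3
  + C c.c20 * X 0 ^ 2 + C c.c11 * (X 0 * X 1) + C c.c02 * X 1 ^ 2 + C c.c10 * X 0 + C c.c01 * X 1
  + C c.c00

theorem exists_toPoly (Q : MvPolynomial (Fin 2) k) (h : Q.totalDegree ≤ 3) :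
    ∃ c, Q = toPoly c := by
  have key : ∀ s : Finset (Fin 2 →₀ ℕ), (∀ d ∈ s, d 0 + d 1 ≤ 3) →
      ∃ c, ∑ d ∈ s, monomial d (coeff d Q) = toPoly c := by
    intro s
    induction s using Finset.induction_on with
    | empty => exact fun _ => ⟨⟨0, 0, 0, 0, 0, 0, 0, 0, 0, 0⟩, by simp [toPoly]⟩
    | insert d s hd ih =>
      intro hs
      obtain ⟨c, hc⟩ := ih fun e he => hs e (Finset.mem_insert_of_mem he)
      have h1 := hs d (Finset.mem_insert_self _ _)
      have h2 : monomial d (coeff d Q) = C (coeff d Q) * (X 0 ^ d 0 * X 1 ^ d 1) := by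
        rw [monomial_eq, Finsupp.prod_fintype _ _ (by simp), Fin.prod_univ_two]
      rw [Finset.sum_insert hd, hc, h2]
      generalize coeff d Q = a
      generalize d 0 = i at *
      generalize d 1 = j at *
      have hi : i ≤ 3 := by omega
      have hj : j ≤ 3 := by omega
      interval_cases i <;> interval_cases j
      · exact ⟨{ c with c00 := c.c00 + a }, by simp only [toPoly, map_add]; ring⟩
      · exact ⟨{ c with c01 := c.c01 + a }, by simp only [toPoly, map_add]; ring⟩
      · exact ⟨{ c with c02 := c.c02 + a }, by simp only [toPoly, map_add]; ring⟩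
      · exact ⟨{ c with c03 := c.c03 + a }, by simp only [toPoly, map_add]; ring⟩
      · exact ⟨{ c with c10 := c.c10 + a }, by simp only [toPoly, map_add]; ring⟩
      · exact ⟨{ c with c11 := c.c11 + a }, by simp only [toPoly, map_add]; ring⟩
      · exact ⟨{ c with c12 := c.c12 + a }, by simp only [toPoly, map_add]; ring⟩
      · omega
      · exact ⟨{ c with c20 := c.c20 + a }, by simp only [toPoly, map_add]; ring⟩
      · exact ⟨{ c with c21 := c.c21 + a }, by simp only [toPoly, map_add]; ring⟩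
      · omega
      · omega
      · exact ⟨{ c with c30 := c.c30 + a }, by simp only [toPoly, map_add]; ring⟩
      · omega
      · omega
      · omega
  obtain ⟨c, hc⟩ := key Q.support fun d hd => by
    have := (le_totalDegree hd).trans h
    rwa [Finsupp.sum_fintype _ _ (by simp), Fin.sum_univ_two] at this
  exact ⟨c, by rw [← hc]; exact Q.as_sum⟩

theorem aeval_toPoly {K : Type*} [Field K] [Algebra k K] (c : Cub k) (z w : K) :
    aeval ![z, w] (toPoly c) = (c.map (algebraMap k K)).ev z w := by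
  simp [toPoly, Cub.ev, Cub.map]

theorem aeval_pderiv0 {K : Type*} [Field K] [Algebra k K] (c : Cub k) (z w : K) :
    aeval ![z, w] (pderiv 0 (toPoly c)) = (c.map (algebraMap k K)).dx z w := by
  simp [toPoly, Cub.dx, Cub.map, Derivation.leibniz, Derivation.leibniz_pow, pderiv_X]
  ring

theorem aeval_pderiv1 {K : Type*} [Field K] [Algebra k K] (c : Cub k) (z w : K) :
    aeval ![z, w] (pderiv 1 (toPoly c)) = (c.map (algebraMap k K)).dy z w := by
  simp [toPoly, Cub.dy, Cub.map, Derivation.leibniz, Derivation.leibniz_pow, pderiv_X]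
  ring

theorem eval_toPoly (c : Cub k) (x : Fin 2 → k) : eval x (toPoly c) = c.ev (x 0) (x 1) := by
  simp [toPoly, Cub.ev]

variable [CharZero k]

theorem eq_of_ev {c d : Cub k} (h : ∀ x y, c.ev x y = d.ev x y) : c = d := by
  have a0 := h 0 0
  have a1 := h 1 0
  have a2 := h (-1) 0
  have a3 := h 2 0
  have b1 := h 0 1
  have b2 := h 0 (-1)
  have b3 := h 0 2
  have e1 := h 1 1
  have e2 := h 1 (-1)
  have e3 := h (-1) 1
  simp only [Cub.ev] at *
  have g00 : c.c00 = d.c00 := by linear_combination a0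
  have g20 : c.c20 = d.c20 := by linear_combination a1 / 2 + a2 / 2 - a0
  have g30 : c.c30 = d.c30 := by linear_combination a3 / 6 - a1 / 2 + a0 / 2 - a2 / 6
  have g10 : c.c10 = d.c10 := by linear_combination a1 / 2 - a2 / 2 - g30
  have g02 : c.c02 = d.c02 := by linear_combination b1 / 2 + b2 / 2 - a0
  have g03 : c.c03 = d.c03 := by linear_combination b3 / 6 - b1 / 2 + a0 / 2 - b2 / 6
  have g01 : c.c01 = d.c01 := by linear_combination b1 / 2 - b2 / 2 - g03
  have g12 : c.c12 = d.c12 := by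
    linear_combination e1 / 2 + e2 / 2 - g30 - g20 - g02 - g10 - g00
  have g21 : c.c21 = d.c21 := by
    linear_combination e1 / 2 + e3 / 2 - g03 - g20 - g02 - g01 - g00
  have g11 : c.c11 = d.c11 := by
    linear_combination e1 - g30 - g21 - g12 - g03 - g20 - g02 - g10 - g01 - g00
  exact Cub.ext g30 g21 g12 g03 g20 g11 g02 g10 g01 g00

theorem realCub_of {τ : k →+* k} {κ : k} {c : Cub k}
    (h : rename (Equiv.swap (0 : Fin 2) 1) (map τ (toPoly c)) = C κ * toPoly c) :
    RealCub τ κ c := by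
  have key : (⟨τ c.c03, τ c.c12, τ c.c21, τ c.c30, τ c.c02, τ c.c11, τ c.c20, τ c.c01, τ c.c10,
      τ c.c00⟩ : Cub k) = ⟨κ * c.c30, κ * c.c21, κ * c.c12, κ * c.c03, κ * c.c20, κ * c.c11,
      κ * c.c02, κ * c.c10, κ * c.c01, κ * c.c00⟩ := by
    refine eq_of_ev fun x y => ?_
    have := congrArg (eval ![x, y]) h
    simp [toPoly] at this
    simp only [Cub.ev]
    linear_combination this
  simp only [Cub.mk.injEq] at key
  obtain ⟨h1, h2, h3, h4, h5, h6, h7, h8, h9, h10⟩ := key
  exact ⟨h4, h3, h2, h1, h7, h6, h5, h9, h8, h10⟩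

omit [CharZero k] in
theorem deg_lin (a b d : k) :
    (C a * X 0 + C b * X 1 + C d : MvPolynomial (Fin 2) k).totalDegree ≤ 1 := by
  refine (totalDegree_add _ _).trans (max_le ((totalDegree_add _ _).trans (max_le ?_ ?_)) ?_)
  · exact (totalDegree_mul _ _).trans (by simp)
  · exact (totalDegree_mul _ _).trans (by simp)
  · simp

theorem noLine_of {c : Cub k} (hirr : Irreducible (toPoly c))
    (hdeg : (toPoly c).totalDegree = 3) : NoLine c := by
  intro a b h1 h2 h3 h4
  by_contra hp
  obtain ⟨e, he⟩ := exists_det_of_not_par hp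
  obtain ⟨u1, hu1⟩ := exists_lin he (1, 0, 0)
  obtain ⟨u2, hu2⟩ := exists_lin he (0, 1, 0)
  obtain ⟨u3, hu3⟩ := exists_lin he (0, 0, 1)
  have hT := T_pull c a b e
  have g30 : (c.pull a b e).c30 = 0 := by simp [Cub.pull, h1]
  have g21 : (c.pull a b e).c21 = 0 := by simp [Cub.pull, h2]
  have g12 : (c.pull a b e).c12 = 0 := by simp [Cub.pull, h3]
  have g03 : (c.pull a b e).c03 = 0 := by simp [Cub.pull, h4]
  generalize c.pull a b e = n at *
  let L1 : MvPolynomial (Fin 2) k := C u1.1 * X 0 + C u2.1 * X 1 + C u3.1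
  let L2 : MvPolynomial (Fin 2) k := C u1.2.1 * X 0 + C u2.2.1 * X 1 + C u3.2.1
  let L3 : MvPolynomial (Fin 2) k := C u1.2.2 * X 0 + C u2.2.2 * X 1 + C u3.2.2
  have d1 : L1.totalDegree ≤ 1 := deg_lin _ _ _
  have d2 : L2.totalDegree ≤ 1 := deg_lin _ _ _
  have d3 : L3.totalDegree ≤ 1 := deg_lin _ _ _
  have hm : ∀ (r : k) (A B : MvPolynomial (Fin 2) k), A.totalDegree ≤ 1 → B.totalDegree ≤ 1 →
      (C r * (A * B)).totalDegree ≤ 2 := by
    intro r A B hA hB
    refine (totalDegree_mul _ _).trans ?_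
    have := totalDegree_mul A B
    rw [totalDegree_C]
    omega
  let G : MvPolynomial (Fin 2) k := C n.c20 * (L1 * L1) + C n.c11 * (L1 * L2) + C n.c02 * (L2 * L2)
    + C n.c10 * (L1 * L3) + C n.c01 * (L2 * L3) + C n.c00 * (L3 * L3)
  have dG : G.totalDegree ≤ 2 := by
    refine (totalDegree_add _ _).trans (max_le ((totalDegree_add _ _).trans (max_le
      ((totalDegree_add _ _).trans (max_le ((totalDegree_add _ _).trans (max_le
      ((totalDegree_add _ _).trans (max_le ?_ ?_)) ?_)) ?_)) ?_)) ?_)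
    exacts [hm _ _ _ d1 d1, hm _ _ _ d1 d2, hm _ _ _ d2 d2, hm _ _ _ d1 d3, hm _ _ _ d2 d3,
      hm _ _ _ d3 d3]
  have hf : toPoly c = L3 * G := by
    refine MvPolynomial.funext fun x => ?_
    have hx : lin a b e (lin u1 u2 u3 (x 0, x 1, 1)) = (x 0, x 1, 1) := by
      simp only [lin, Prod.mk.injEq] at hu1 hu2 hu3 ⊢
      exact ⟨by linear_combination x 0 * hu1.1 + x 1 * hu2.1 + hu3.1,
        by linear_combination x 0 * hu1.2.1 + x 1 * hu2.2.1 + hu3.2.1,
        by linear_combination x 0 * hu1.2.2 + x 1 * hu2.2.2 + hu3.2.2⟩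
    have := hT (lin u1 u2 u3 (x 0, x 1, 1)) (lin u1 u2 u3 (x 0, x 1, 1))
      (lin u1 u2 u3 (x 0, x 1, 1))
    rw [hx] at this
    rw [eval_toPoly]
    simp only [G, L1, L2, L3, map_add, map_mul, eval_C, eval_X]
    simp only [Cub.T, lin, g30, g21, g12, g03] at this
    simp only [Cub.ev]
    linear_combination -this / 6
  have hle := totalDegree_mul L3 G
  rw [← hf, hdeg] at hle
  rcases hirr.isUnit_or_isUnit hf with hu | hu
  · have := (isUnit_iff_totalDegree_of_isReduced.1 hu).2
    omega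
  · have := (isUnit_iff_totalDegree_of_isReduced.1 hu).2
    omega

end Ivrii.NT
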