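import Mathlib
import Pool.Agent.P.MP_7a8567_an.NT.Coord
import Pool.Agent.P.MP_7a8567_an.NT.Poly

/-! Good flags on a real cubic. -/

set_option autoImplicit false
open MvPolynomial

namespace Ivrii.NT

/-- Value of `∂Q/∂z` at `(z, w)`. -/
noncomputable def Qz {k K : Type*} [Field k] [Field K] [Algebra k K]
    (Q : MvPolynomial (Fin 2) k) (z w : K) : K := aeval ![z, w] (pderiv 0 Q)

/-- Value of `∂Q/∂w` at `(z, w)`. -/
noncomputable def Qw {k K : Type*} [Field k] [Field K] [Algebra k K]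
    (Q : MvPolynomial (Fin 2) k) (z w : K) : K := aeval ![z, w] (pderiv 1 Q)

/-- The point at parameter `u` on the line through `(z, w)` with direction `t` is a point where both
partial derivatives are nonzero and the reflected flag is good. -/
def Next {k K : Type*} [Field k] [Field K] [Algebra k K] (Q : MvPolynomial (Fin 2) k)
    (Good : K → K → K → Prop) (t z w u : K) : Prop :=
  Qz Q (z + t * u) (w + u / t) ≠ 0 ∧ Qw Q (z + t * u) (w + u / t) ≠ 0 ∧
    Good (-Qw Q (z + t * u) (w + u / t) / Qz Q (z + t * u) (w + u / t) / t) (z + t * u) (w + u / t)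

theorem nt {k K : Type*} [Field k] [IsAlgClosed k] [CharZero k] [Field K] [IsAlgClosed K]
    [Algebra k K] (iota : ℝ →+* k) (tau : k →+* k) (htau : ∀ a, tau (tau a) = a)
    (Q : MvPolynomial (Fin 2) k) (hirr : Irreducible Q) (hdeg : Q.totalDegree = 3)
    (c : k) (hreal : rename (Equiv.swap (0 : Fin 2) 1) (map tau Q) = C c * Q)
    (z0 w0 s : K) (h0 : aeval ![z0, w0] Q = 0) (hz0 : z0 ∉ Set.range (algebraMap k K))
    (hs : s ≠ 0) (hsq : s ^ 2 * Qz Q z0 w0 = -Qw Q z0 w0) :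
    ∃ Good : K → K → K → Prop,
      (∀ t z w, Good t z w → t ≠ 0 ∧ aeval ![z, w] Q = 0 ∧
        ∃ lc u1 u2 : K, lc ≠ 0 ∧ u1 ≠ 0 ∧ u2 ≠ 0 ∧ u1 ≠ u2 ∧
          (∀ u, aeval ![z + t * u, w + u / t] Q = lc * (u * (u - u1) * (u - u2))) ∧
          Next Q Good t z w u1 ∧ Next Q Good t z w u2) ∧
      ∃ lc uB : K, lc ≠ 0 ∧ uB ≠ 0 ∧
        (∀ u, aeval ![z0 + s * u, w0 + u / s] Q = lc * (u ^ 2 * (u - uB))) ∧
        Next Q Good s z0 w0 uB := by
  obtain ⟨d, rfl⟩ := exists_toPoly Q hdeg.le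
  simp only [Next, Qz, Qw, aeval_toPoly, aeval_pderiv0, aeval_pderiv1] at *
  exact fin0 iota htau (realCub_of hreal) (noLine_of hirr hdeg) h0 hz0 hs hsq

end Ivrii.NT
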